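import Pool.Agent.Lib.DC83.Main

/-! Two ways of getting a distinguishing colouring: an injective colouring (all fields of degree
`n ≤ b ^ r`) and the motion lemma (every non-trivial element moves many points). -/

namespace Pool.Agent.DC83

open Finset Pool.Agent.NF98

lemma card_fix {Ω : Type} [Fintype Ω] [DecidableEq Ω] (f : Ω → ℕ) (g : Ω → Ω) (q : ℕ) :
    (univ.filter fun c : Ω → Fin q => ∀ x, c (g x) = c x).card ≤
      q ^ (univ.filter fun x => ¬ f (g x) < f x).card := by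
  have h := card_le_card_of_injOn (s := univ.filter fun c : Ω → Fin q => ∀ x, c (g x) = c x)
    (t := univ) (fun c (x : (univ.filter fun x => ¬ f (g x) < f x)) => c x)
    (fun _ _ => mem_univ _) (by
      intro c hc c' hc' e
      have h1 := (mem_filter.1 hc).2
      have h2 := (mem_filter.1 hc').2
      funext x
      induction hm : f x using Nat.strong_induction_on generalizing x with
      | h m ih =>
        by_cases hx : f (g x) < f x
        · rw [← h1, ← h2, ih _ (hm ▸ hx) _ rfl]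
        · exact congrFun e ⟨x, mem_filter.2 ⟨mem_univ _, hx⟩⟩)
  rwa [card_univ, Fintype.card_fun, Fintype.card_fin, Fintype.card_coe] at h

/-- The motion lemma. -/
theorem motion {Ω : Type} [Fintype Ω] [DecidableEq Ω] (G : Finset (Ω → Ω)) (q μ : ℕ)
    (hq : 1 ≤ q) (hμ : ∀ g ∈ G, 2 * μ ≤ (univ.filter fun x => g x ≠ x).card)
    (hG : G.card < q ^ μ) : ∃ c : Ω → Fin q, ∀ g ∈ G, ¬ ∀ x, c (g x) = c x := by
  classical
  let f := Fintype.equivFin Ω
  have h1 : ∀ g ∈ G, (univ.filter fun c : Ω → Fin q => ∀ x, c (g x) = c x).card * q ^ μ ≤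
      q ^ Fintype.card Ω := by
    intro g hg
    have a1 := card_fix (fun x => f x) g q
    have a2 := card_fix (fun x => (f x).rev) g q
    have a3 := card_filter_add_card_filter_not (s := (univ : Finset Ω))
      fun x => (f (g x) : ℕ) < f x
    have a4 := card_filter_add_card_filter_not (s := (univ : Finset Ω))
      fun x => ((f (g x)).rev : ℕ) < (f x).rev
    have a5 : (univ.filter fun x => g x ≠ x).card ≤
        (univ.filter fun x => (f (g x) : ℕ) < f x).card +
          (univ.filter fun x => ((f (g x)).rev : ℕ) < (f x).rev).card := by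
      refine le_trans (card_le_card fun x hx => ?_) (card_union_le _ _)
      rcases lt_or_gt_of_ne (f.injective.ne (mem_filter.1 hx).2) with h | h
      · exact mem_union_left _ (mem_filter.2 ⟨mem_univ _, h⟩)
      · exact mem_union_right _ (mem_filter.2 ⟨mem_univ _, Fin.rev_lt_rev.2 h⟩)
    have a6 := hμ g hg
    rw [card_univ] at a3 a4
    by_cases h : μ ≤ (univ.filter fun x => (f (g x) : ℕ) < f x).card
    · refine (Nat.mul_le_mul_right _ a1).trans ?_
      rw [← pow_add]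
      exact Nat.pow_le_pow_right hq (by omega)
    · refine (Nat.mul_le_mul_right _ a2).trans ?_
      rw [← pow_add]
      exact Nat.pow_le_pow_right hq (by omega)
  by_contra h0
  push Not at h0
  have h2 : (univ : Finset (Ω → Fin q)) ⊆
      G.biUnion fun g => univ.filter fun c : Ω → Fin q => ∀ x, c (g x) = c x := fun c _ => by
    obtain ⟨g, hg, h⟩ := h0 c
    exact mem_biUnion.2 ⟨g, hg, mem_filter.2 ⟨mem_univ _, h⟩⟩
  have h3 := Nat.mul_le_mul_right (q ^ μ) ((card_le_card h2).trans card_biUnion_le)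
  rw [sum_mul] at h3
  have h4 := h3.trans (sum_le_card_nsmul _ _ _ h1)
  rw [card_univ, Fintype.card_fun, Fintype.card_fin, smul_eq_mul, mul_comm] at h4
  exact absurd (Nat.le_of_mul_le_mul_right h4 (pow_pos hq _)) (not_le.2 hG)

/-- If the Galois group has at most `q ^ μ` elements and each non-trivial one moves at least
`2 μ` embeddings, there is a distinguishing colouring with `q` colours. -/
theorem colouring_of_motion (K : Type) [Field K] [NumberField K] (q μ : ℕ) (hq : 1 ≤ q)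
    (hG : (Set.range fun (τ : Fb ≃ₐ[ℚ] Fb) (φ : K →ₐ[ℚ] Fb) =>
      (τ : Fb →ₐ[ℚ] Fb).comp φ).ncard ≤ q ^ μ)
    (hμ : ∀ τ : Fb ≃ₐ[ℚ] Fb, (∃ φ : K →ₐ[ℚ] Fb, (τ : Fb →ₐ[ℚ] Fb).comp φ ≠ φ) →
      2 * μ ≤ {φ : K →ₐ[ℚ] Fb | (τ : Fb →ₐ[ℚ] Fb).comp φ ≠ φ}.ncard) :
    ∃ c : (K →ₐ[ℚ] Fb) → Fin q, ∀ τ : Fb ≃ₐ[ℚ] Fb,
      (∀ φ, c ((τ : Fb →ₐ[ℚ] Fb).comp φ) = c φ) → ∀ φ : K →ₐ[ℚ] Fb,
        (τ : Fb →ₐ[ℚ] Fb).comp φ = φ := by
  classical
  set S := Set.range fun (τ : Fb ≃ₐ[ℚ] Fb) (φ : K →ₐ[ℚ] Fb) => (τ : Fb →ₐ[ℚ] Fb).comp φ with hS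
  have hfin : S.Finite := Set.toFinite _
  have h1 : id ∈ hfin.toFinset := hfin.mem_toFinset.2 ⟨1, rfl⟩
  obtain ⟨c, hc⟩ := motion (hfin.toFinset.erase id) q μ hq (fun g hg => by
    obtain ⟨h2, h3⟩ := mem_erase.1 hg
    obtain ⟨τ, rfl⟩ := hfin.mem_toFinset.1 h3
    have h4 := hμ τ (Function.ne_iff.1 h2)
    rwa [Set.ncard_eq_toFinset_card', Set.toFinset_setOf] at h4)
    ((card_erase_lt_of_mem h1).trans_le (by rwa [← Set.ncard_eq_toFinset_card S hfin]))
  refine ⟨c, fun τ hτ φ => ?_⟩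
  by_contra h
  exact hc (fun φ => (τ : Fb →ₐ[ℚ] Fb).comp φ)
    (mem_erase.2 ⟨fun e => h (congrFun e φ), hfin.mem_toFinset.2 ⟨τ, rfl⟩⟩) hτ

/-- All fields of degree `n ≤ b ^ r`: the injective colouring. -/
theorem logExponent : St_MAIN := by
  intro n r b hn hb ε hε
  have hr : 1 ≤ r := by
    rcases Nat.eq_zero_or_pos r with rfl | h
    · simp at hb; omega
    · exact h
  obtain ⟨C, hC⟩ := main n r b hn hr ε hε
  refine ⟨C, fun D hD m K _ _ hK hd hi => hC D hD m K hK hd hi fun i => ?_⟩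
  obtain ⟨c⟩ : Nonempty ((K i →ₐ[ℚ] Fb) ↪ Fin (b ^ r)) :=
    Function.Embedding.nonempty_of_card_le (by rw [AlgHom.card, hK i]; simpa using hb)
  exact ⟨c, fun τ h φ => c.injective (h φ)⟩

end Pool.Agent.DC83
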