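import Pool.Agent.Lib.DC83.Main2
import Pool.Agent.Lib.DC83.Cor

/-! The case `β = b`, `A = n !` is the bound that uses the colouring only. -/

namespace Pool.Agent.DC83

open Module Pool.Agent.NF98

lemma finrank_le {F E K G : Type} [Field F] [Field E] [Field K] [Algebra F E] [Algebra F K]
    [IsGalois F E] [FiniteDimensional F K] [Group G] [Finite G] (φ : (E ≃ₐ[F] E) →* G)
    (h : ∀ τ : E ≃ₐ[F] E, φ τ = 1 → ∀ (s : K →ₐ[F] E) (x : K), τ (s x) = s x) :
    finrank F (IntermediateField.normalClosure F K E) ≤ Nat.card G := by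
  set L := IntermediateField.normalClosure F K E with hL
  let f : (E ≃ₐ[F] E) →* (L ≃ₐ[F] L) := AlgEquiv.restrictNormalHom L
  have h0 : L ≤ IntermediateField.fixedField φ.ker := normalClosure_le_iff.2 fun s => by
    rintro _ ⟨x, rfl⟩ τ
    exact h τ τ.2 s x
  have h1 : φ.ker ≤ f.ker := by
    intro τ hτ
    ext x
    exact (AlgEquiv.restrictNormalHom_apply L τ x).trans (h0 x.2 ⟨τ, hτ⟩)
  have h2 : f.range = ⊤ := MonoidHom.range_eq_top.2 (AlgEquiv.restrictNormalHom_surjective E)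
  have h3 := Subgroup.index_dvd_of_le h1
  rw [Subgroup.index_ker, Subgroup.index_ker, h2, Subgroup.card_top,
    IsGalois.card_aut_eq_finrank] at h3
  exact (Nat.le_of_dvd Nat.card_pos h3).trans
    (Nat.card_le_card_of_injective _ Subtype.val_injective)

theorem colourExponent (n r b : ℕ) (hn : 2 ≤ n) (hr : 1 ≤ r) (hb : 2 ≤ b) (ε : ℝ) (hε : 0 < ε) :
    ∃ C : ℝ, ∀ D : ℕ, 1 ≤ D →
      ∀ m : ℕ, ∀ (K : Fin m → Type) [∀ i, Field (K i)] [∀ i, NumberField (K i)],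
        (∀ i, Module.finrank ℚ (K i) = n) →
        (∀ i, (NumberField.discr (K i)).natAbs ≤ D) →
        (∀ i j, i ≠ j → IsEmpty (K i ≃+* K j)) →
        (∀ i, ∃ c : (K i →ₐ[ℚ] Fb) → Fin (b ^ r), ∀ τ : Fb ≃ₐ[ℚ] Fb,
          (∀ φ, c ((τ : Fb →ₐ[ℚ] Fb).comp φ) = c φ) → ∀ φ : K i →ₐ[ℚ] Fb,
            (τ : Fb →ₐ[ℚ] Fb).comp φ = φ) →
        (m : ℝ) ≤ C * (D : ℝ) ^ ((r : ℝ) * (b - 1 / 2) + ε) := by
  have : IsAlgClosure ℚ Fb := AlgebraicClosure.instIsAlgClosure ℚ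
  have : Normal ℚ Fb := IsAlgClosure.normal ℚ Fb
  have : IsGalois ℚ Fb := {}
  obtain ⟨C, hC⟩ := main2 n r b n.factorial hn hr (hn.trans n.self_le_factorial) b ε
    (by exact_mod_cast hb) le_rfl hε
  refine ⟨C, fun D hD m K _ _ hK hd hi hc => ?_⟩
  have h := hC D hD m K hK hd hi (fun i => ?_) hc
  · rwa [intervalIntegral.integral_same, mul_zero, add_zero] at h
  have σ : Fin n ≃ (K i →ₐ[ℚ] Fb) :=
    (Fintype.equivFinOfCardEq ((AlgHom.card ℚ (K i) Fb).trans (hK i))).symm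
  refine (finrank_le (K := K i) (act σ) fun τ hτ s x => ?_).trans (by
    rw [Nat.card_perm, Nat.card_eq_fintype_card, Fintype.card_fin])
  have h1 := act_spec σ τ (σ.symm s)
  rw [hτ, Equiv.Perm.one_apply, Equiv.apply_symm_apply] at h1
  exact (DFunLike.congr_fun h1 x).symm

end Pool.Agent.DC83
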