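import Pool.Agent.Lib.DC83.Orbit
import Pool.Agent.Lib.NF98.FROB
import Pool.Agent.Lib.NF98.RED
import Pool.Agent.Lib.NF98.DETP
import Pool.Agent.Lib.NF98.BASIS
import Pool.Agent.Lib.NF98.ARCH
import Pool.Agent.Lib.NF98.ONEP
import Pool.Agent.Lib.NF98.INEQ
import Pool.Agent.Lib.NF98.MERT
import Pool.Agent.Lib.NF98.NUMA
import Pool.Agent.Lib.NF98.NUMB
import Pool.Agent.Lib.NF98.ITER
import Pool.Agent.Lib.NF98.DBND
import Pool.Agent.Lib.NF98.COUNT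

/-! Counting points whose coordinates are permuted through a group with a distinguishing
colouring. -/

namespace Pool.Agent.DC83

open MvPolynomial Finset Module Pool.Agent.NF98

theorem count (n r b : ℕ) (c0 : Fin r) (ε : ℝ) (hb : 1 ≤ b) (hε : 0 < ε)
    (G : Subgroup (Equiv.Perm (Fin n))) (P : Fin n → Fin r → Fin b)
    (hP : ∀ g ∈ G, (∀ i, P (g i) = P i) → g = 1) :
    ∃ δ : R n r, δ ≠ 0 ∧ Dif δ c0 ∧ ∃ C : ℝ, 1 ≤ C ∧ ∀ (T : ℝ) (S : Finset (V n r → Ob)), 2 ≤ T →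
      (∀ Z ∈ S, StabG G Z ∧ Bdd T Z ∧ aeval Z δ ≠ 0) →
      (S.card : ℝ) ≤ C * T ^ ((b * r * n : ℕ) + ε) := by
  obtain ⟨k, e, θ, hk, he, hθ, hpar⟩ := COUNT.exists_par b (n * r + 1) (n * r) ε hε
  obtain ⟨l0, hbl, hl0⟩ := Nat.exists_infinite_primes b
  haveI : Fact l0.Prime := ⟨hl0⟩
  obtain ⟨N, ⟨eG⟩⟩ : ∃ N, Nonempty (Fin N ≃ G) := ⟨_, ⟨(Finite.equivFin G).symm⟩⟩
  set s := b * k + (n * r + 1) * b + 1 with hs
  obtain ⟨δ, hR, hδ, hO⟩ := exists_delta eG l0 c0 hbl hb hk P hP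
  obtain ⟨c, hc⟩ := blk_INEQ (blk_ONEP (blk_RED blk_FILT blk_FROB) blk_DETP blk_HILB) blk_BASIS
    blk_ARCH N _ δ 0 s k hR
  obtain ⟨C₁, hC₁, hd⟩ := blk_DBND N _ δ
  obtain ⟨η, C₂, hη, hC₂, hit⟩ := blk_ITER θ hθ
  obtain ⟨C₃, hC₃, hnb⟩ := blk_NUMB (N * (s + (n * r + 1)) + 2) s k c (n * r) C₁ η e hk hC₁ hη he
  set x : ℝ := ((s : ℝ) + 2) / k + e with hx
  have hx0 : 0 ≤ x := by positivity
  set κ : ℝ := l0 * n * n + 1 with hκ
  have hκ1 : 1 ≤ κ := le_add_of_nonneg_left (by positivity)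
  have hy0 : (0 : ℝ) ≤ (b * r * n : ℕ) + ε := by positivity
  refine ⟨aeval (orb eG l0 c0 (X : V n r → R n r)) δ *
    ∏ p ∈ (univ : Finset (Fin n)).offDiag, (X (p.1, c0) - X (p.2, c0)), mul_ne_zero hδ ?_,
    fun i j hij => Dvd.dvd.mul_left ?_ _,
    C₂ * ((3 * C₃) ^ (n * r)) ^ (1 + θ) * κ ^ ((b * r * n : ℕ) + ε), ?_, ?_⟩
  · exact prod_ne_zero_iff.2 fun p hp => sub_ne_zero.2 fun e =>
      (mem_offDiag.1 hp).2.2 (congrArg Prod.fst (X_injective e))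
  · exact dvd_prod_of_mem (fun p : Fin n × Fin n => (X (p.1, c0) - X (p.2, c0) : R n r))
      (a := (i, j)) (by simp [hij])
  · have h1 : (1 : ℝ) ≤ (3 * C₃) ^ (n * r) := one_le_pow₀ (by linarith)
    have h2 : (1 : ℝ) ≤ ((3 * C₃) ^ (n * r)) ^ (1 + θ) := Real.one_le_rpow h1 (by linarith)
    exact one_le_mul_of_one_le_of_one_le (one_le_mul_of_one_le_of_one_le hC₂ h2)
      (Real.one_le_rpow hκ1 hy0)
  intro T0 S hT02 hS
  rw [mul_assoc, ← Real.mul_rpow (by linarith) (by linarith)]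
  have hT2 : 2 ≤ κ * T0 := by nlinarith
  have hbd0 : ∀ Z : S, Bdd (κ * T0) (orb eG l0 c0 (Z : V n r → Ob)) := fun Z =>
    bdd_orb eG l0 c0 (by linarith) (hS Z Z.2).2.1
  generalize κ * T0 = T at hT2 hbd0 ⊢
  have hT1 : (1 : ℝ) ≤ T := by linarith
  have hT0 : (0 : ℝ) < T := by linarith
  have hex : ∀ Z : S, ∃ Δ : ℤ, Good δ 0 (orb eG l0 c0 (Z : V n r → Ob)) Δ := fun Z =>
    hO Z (hS Z Z.2).1 fun h0 => (hS Z Z.2).2.2 (by
      rw [map_mul]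
      exact mul_eq_zero_of_left ((aeval_orb eG l0 c0 (Z : V n r → Ob) δ).trans h0) _)
  choose Δ hΔ using hex
  set Zf : S → V N (n * r + 1) → Fb := fun Z v => ((orb eG l0 c0 (Z : V n r → Ob) v : Ob) : Fb)
    with hZf
  have hB1 : (1 : ℝ) ≤ T ^ C₁ := Real.one_le_rpow hT1 hC₁
  have hineq := hc S (fun Z => orb eG l0 c0 (Z : V n r → Ob)) Δ T (T ^ C₁) hT1 (fun Z =>
    ⟨hΔ Z, hbd0 Z, hd T _ (Δ Z) hT2 (hbd0 Z) (hΔ Z).val⟩)
  obtain ⟨-, hmono, -, hinj, -⟩ := blk_HILB S (V N (n * r + 1)) Fb Zf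
  have hbd : ∀ j, Hf Zf j ≤ (j + 1) ^ (n * r) := fun j => by
    have h1 : Zf = fun Z : S => orb eG l0 c0 fun w => ((Z : V n r → Ob) w : Fb) := by
      funext Z v
      exact orb_map eG l0 c0 (integralClosure ℤ Fb).val (Z : V n r → Ob) v
    rw [h1]
    exact hf_orb eG l0 c0 _ j
  have hsat := hnb (Hf Zf) T hT2 hmono hbd
    (blk_NUMA blk_MERT _ s k c (Hf Zf) T (T ^ C₁) hB1 hmono hineq)
  have hZinj : Function.Injective Zf := by
    intro Z W h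
    apply Subtype.ext
    apply orb_inj eG l0 c0
    funext v
    exact Subtype.ext (congrFun h v)
  have hTx : (1 : ℝ) ≤ T ^ x := Real.one_le_rpow hT1 hx0
  have hy : (1 : ℝ) ≤ C₃ * T ^ x := by nlinarith
  set l := ⌈C₃ * T ^ x⌉₊ with hl
  have hl1 : 1 ≤ l := Nat.one_le_ceil_iff.2 (by linarith)
  have hl2 : (l : ℝ) + 1 ≤ 3 * C₃ * T ^ x := by
    have := Nat.ceil_lt_add_one (show 0 ≤ C₃ * T ^ x by linarith)
    linarith
  have hBl : (Hf Zf l : ℝ) ≤ (3 * C₃ * T ^ x) ^ (n * r) := by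
    calc (Hf Zf l : ℝ) ≤ ((l : ℝ) + 1) ^ (n * r) := by exact_mod_cast hbd l
      _ ≤ _ := pow_le_pow_left₀ (by positivity) hl2 _
  have hfin := hit (Hf Zf) l (Fintype.card S) ((3 * C₃ * T ^ x) ^ (n * r)) hl1
    (one_le_pow₀ (by nlinarith)) hmono (hinj hZinj) hBl (fun j hj => hsat j (by
      have h1 : C₃ * T ^ x ≤ l := Nat.le_ceil _
      have h2 : (l : ℝ) ≤ j := by exact_mod_cast hj
      exact h1.trans h2))
  rw [Fintype.card_coe] at hfin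
  refine hfin.trans ?_
  rw [mul_pow, Real.mul_rpow (by positivity) (by positivity), ← mul_assoc]
  refine mul_le_mul_of_nonneg_left ?_ (by positivity)
  rw [← Real.rpow_natCast, ← Real.rpow_mul hT0.le, ← Real.rpow_mul hT0.le]
  refine Real.rpow_le_rpow_of_exponent_le hT1 (hpar.trans ?_)
  push_cast
  linarith

end Pool.Agent.DC83
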