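import Pool.Agent.Lib.DC83.Ineq

/-! Growth of the mean degree of the basis monomials. -/

namespace Pool.Agent.DC83

open Finset Pool.Agent.NF98

/-- the mean degree of the first `N` basis monomials -/
noncomputable def Jd (H : ℕ → ℕ) (M N : ℕ) : ℝ := (Sd H M N : ℝ) / N

variable {H : ℕ → ℕ} {M : ℕ}

lemma sd_le (hH : Monotone H) {N l : ℕ} (h : N ≤ H l) : Sd H M N ≤ ∑ j ∈ range l, (N - H j) :=
  sum_le_sum_of_ne_zero fun j _ hj => mem_range.2 (by
    by_contra h0
    have := hH (not_lt.1 h0)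
    omega)

lemma jd_le (hH : Monotone H) {N l : ℕ} (h : N ≤ H l) : Jd H M N ≤ l := by
  refine div_le_of_le_mul₀ (Nat.cast_nonneg _) (Nat.cast_nonneg _) ?_
  have h1 := (sd_le (M := M) hH h).trans
    (sum_le_card_nsmul (range l) (fun j => N - H j) N fun j _ => Nat.sub_le _ _)
  rw [card_range, smul_eq_mul] at h1
  exact_mod_cast h1

lemma jd_mono {N c : ℕ} (hN : 1 ≤ N) (hc : 1 ≤ c) : Jd H M N ≤ Jd H M (c * N) := by
  have h1 : c * Sd H M N ≤ Sd H M (c * N) := by
    rw [Sd, mul_sum]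
    refine sum_le_sum fun j _ => ?_
    rw [Nat.mul_sub]
    exact Nat.sub_le_sub_left (Nat.le_mul_of_pos_left _ hc) _
  have h2 : (c : ℝ) * Sd H M N ≤ Sd H M (c * N) := by exact_mod_cast h1
  have hN0 : (0 : ℝ) < N := by exact_mod_cast hN
  have hc0 : (0 : ℝ) < c := by exact_mod_cast hc
  rw [Jd, Jd, Nat.cast_mul, div_le_div_iff₀ hN0 (mul_pos hc0 hN0)]
  nlinarith

lemma step {a A m N W : ℕ} {T C₁ : ℝ} (hH : Monotone H) (hb : ∀ j, H j ≤ (j + 1) ^ m)
    (hI : Ineq2 a A M H T (T ^ C₁)) (hA : 2 ≤ A) (hN : 1 ≤ N) (hM : A * N ≤ H M) (hW : 2 ≤ W)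
    (hT : 1 ≤ T) (hC : 0 ≤ C₁) (hJ : 1 ≤ Jd H M N) :
    (1 - 1 / (W : ℝ)) * Jd H M N * (Real.log (Jd H M N) - 1 - W) ≤
      Jd H M (A * N) * ((1 + 4 * C₁ / W) * Real.log T + (4 * a + 2 * m + Real.log A)) := by
  have hex : ∃ j, N ≤ H j := ⟨M, (Nat.le_mul_of_pos_left _ (by omega)).trans hM⟩
  classical
  set L := Nat.find hex with hL
  have hL1 : N ≤ H L := Nat.find_spec hex
  have hL2 : L ≤ M := Nat.find_min' hex ((Nat.le_mul_of_pos_left _ (by omega)).trans hM)
  have hJL : Jd H M N ≤ L := jd_le hH hL1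
  have hL0 : 1 ≤ L := by exact_mod_cast hJ.trans hJL
  have hJ1 : 1 ≤ Jd H M (A * N) := hJ.trans (jd_mono hN (by omega))
  have h1 := closed hH hI hM hW hL0
  have hN0 : (0 : ℝ) < N := by exact_mod_cast hN
  have hA0 : (2 : ℝ) ≤ A := by exact_mod_cast hA
  have hW0 : (2 : ℝ) ≤ W := by exact_mod_cast hW
  have hW1 : (0 : ℝ) ≤ 1 - 1 / W := by
    rw [sub_nonneg, div_le_one (by linarith)]; linarith
  have hAN : (0 : ℝ) < (A * N : ℕ) := by push_cast; positivity
  have e1 : ((∑ j ∈ range L, (A * N - A * H j) : ℕ) : ℝ) = Jd H M N * (A * N : ℕ) := by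
    have a1 : ∑ j ∈ range L, (A * N - A * H j) = A * Sd H M N := by
      rw [le_antisymm (sd_le hH hL1) (sum_le_sum_of_subset (range_mono hL2)), mul_sum]
      exact sum_congr rfl fun j _ => (Nat.mul_sub _ _ _).symm
    rw [a1, Jd]
    push_cast
    field_simp
  have e2 : (Sd H M (A * N) : ℝ) = Jd H M (A * N) * (A * N : ℕ) := by
    rw [Jd, div_mul_cancel₀ _ hAN.ne']
  have e3 : (L : ℝ) ≤ 2 * Jd H M (A * N) := by
    have a1 : L * (A * N) ≤ 2 * Sd H M (A * N) := by
      have a2 := card_nsmul_le_sum (range L) (fun j => 2 * (A * N - H j)) (A * N) fun j hj => by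
        have a3 := Nat.find_min hex (mem_range.1 hj)
        have a4 : 2 * N ≤ A * N := Nat.mul_le_mul_right _ hA
        omega
      rw [card_range, smul_eq_mul, ← mul_sum] at a2
      exact a2.trans (Nat.mul_le_mul_left _ (sum_le_sum_of_subset (range_mono hL2)))
    have a2 : (L : ℝ) * (A * N : ℕ) ≤ 2 * Sd H M (A * N) := by exact_mod_cast a1
    rw [e2, ← mul_assoc] at a2
    exact le_of_mul_le_mul_right a2 hAN
  have e4 : Real.log (A * N : ℕ) ≤ Jd H M (A * N) * (2 * m + Real.log A) := by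
    have a1 : (N : ℝ) ≤ ((L : ℝ) + 1) ^ m := by exact_mod_cast hL1.trans (hb L)
    have a2 := Real.log_le_log hN0 a1
    have a3 := Real.log_le_sub_one_of_pos (x := (L : ℝ) + 1) (by positivity)
    have a4 : 0 ≤ Real.log A := Real.log_natCast_nonneg A
    rw [Real.log_pow] at a2
    rw [Nat.cast_mul, Real.log_mul (by linarith) hN0.ne']
    have a5 : (m : ℝ) * Real.log (L + 1) ≤ m * (2 * Jd H M (A * N)) :=
      mul_le_mul_of_nonneg_left (by linarith) (Nat.cast_nonneg _)
    nlinarith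
  have hτ : 0 ≤ Real.log T := Real.log_nonneg hT
  rw [e1, e2, Real.log_rpow (by linarith)] at h1
  refine le_of_mul_le_mul_right ?_ hAN
  set X : ℝ := ((A * N : ℕ) : ℝ)
  set J0 := Jd H M N
  set J1 := Jd H M (A * N)
  have f1 : (1 - 1 / (W : ℝ)) * J0 * (Real.log J0 - 1 - W) * X ≤
      (1 - 1 / (W : ℝ)) * (J0 * X) * (Real.log L - 1 - W) := by
    have := mul_le_mul_of_nonneg_left (Real.log_le_log (by linarith) hJL)
      (show 0 ≤ (1 - 1 / (W : ℝ)) * (J0 * X) by positivity)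
    linarith
  have f2 := mul_le_mul_of_nonneg_left e4 hAN.le
  have f3 := mul_le_mul_of_nonneg_left e3 (show 0 ≤ 2 * (a : ℝ) * X by positivity)
  have f4 := mul_le_mul_of_nonneg_left e3
    (show 0 ≤ 2 / (W : ℝ) * (X * (C₁ * Real.log T)) by positivity)
  have f5 : 2 * (L : ℝ) / W * (X * (C₁ * Real.log T)) = 2 / W * (X * (C₁ * Real.log T)) * L := by
    ring
  have f6 : J1 * ((1 + 4 * C₁ / W) * Real.log T + (4 * a + 2 * m + Real.log A)) * X =
      X * (J1 * (2 * m + Real.log A)) + J1 * X * Real.log T + 2 * a * X * (2 * J1) +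
        2 / W * (X * (C₁ * Real.log T)) * (2 * J1) := by ring
  linarith

lemma ratio {η C₁ K W τ u J0 J1 : ℝ} (hη : 0 < η) (hη1 : η ≤ 1) (hC : 0 ≤ C₁) (hK : 0 ≤ K)
    (hW : 2 * (1 + 4 * C₁) ≤ η * W) (hW2 : 2 ≤ W) (hτ : 2 * (1 + W + K) ≤ η * τ) (hu : 1 ≤ u)
    (hJ : 0 ≤ J0) (h : (1 - 1 / W) * J0 * (u * τ - 1 - W) ≤ J1 * ((1 + 4 * C₁ / W) * τ + K)) :
    (1 - η) * u * J0 ≤ J1 := by
  have hW0 : 0 < W := by linarith
  have hτ0 : 0 < τ := by
    by_contra h0
    nlinarith
  have hR : 0 < (1 + 4 * C₁ / W) * τ + K := by positivity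
  refine le_of_mul_le_mul_right (le_trans ?_ h) hR
  have h1 : (1 + 4 * C₁) / W ≤ η / 2 := by
    rw [div_le_iff₀ hW0]; linarith
  have h2 : (1 - η) * u * ((1 + 4 * C₁ / W) * τ + K) ≤ (1 - 1 / W) * (u * τ - 1 - W) := by
    have a0 : 0 ≤ u * τ := by positivity
    have a1 : 0 ≤ η * (4 * C₁ / W) * (u * τ) := by positivity
    have a2 : 0 ≤ η * u * K := by positivity
    have a3 : 0 ≤ 1 / W * (1 + W) := by positivity
    have a4 := mul_le_mul_of_nonneg_right h1 a0
    have a5 := mul_le_mul_of_nonneg_left hτ (show 0 ≤ u by linarith)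
    have a6 : 1 + W ≤ u * (1 + W) := by nlinarith
    have a7 : (1 + 4 * C₁) / W = 1 / W + 4 * C₁ / W := by ring
    rw [a7] at a4
    nlinarith
  have := mul_le_mul_of_nonneg_left h2 hJ
  linarith

lemma int_ge {β u v : ℝ} (hβ : 1 < β) (hu : β ≤ u) (hv : u ≤ v) :
    (∫ t in β..u, 1 / Real.log t) + (v - u) / Real.log v ≤ ∫ t in β..v, 1 / Real.log t ∧
      ∫ t in β..v, 1 / Real.log t ≤ (∫ t in β..u, 1 / Real.log t) + (v - u) / Real.log β := by
  have hi : ∀ x y, β ≤ x → x ≤ y →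
      IntervalIntegrable (fun t => 1 / Real.log t) MeasureTheory.volume x y := by
    intro x y hx hy
    refine ContinuousOn.intervalIntegrable_of_Icc hy (continuousOn_const.div
      (Real.continuousOn_log.mono fun t ht => ?_) fun t ht => (Real.log_pos ?_).ne')
    · exact ne_of_gt (by linarith [ht.1] : (0 : ℝ) < t)
    · linarith [ht.1]
  rw [← intervalIntegral.integral_add_adjacent_intervals (hi β u le_rfl hu) (hi u v hu hv)]
  constructor
  · have := intervalIntegral.integral_mono_on hv (intervalIntegrable_const (c := 1 / Real.log v))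
      (hi u v hu hv) fun t ht => one_div_le_one_div_of_le (Real.log_pos (by linarith [ht.1]))
        (Real.log_le_log (by linarith [ht.1]) ht.2)
    rw [intervalIntegral.integral_const, smul_eq_mul, mul_one_div] at this
    linarith
  · have := intervalIntegral.integral_mono_on hv (hi u v hu hv)
      (intervalIntegrable_const (c := 1 / Real.log β)) fun t ht =>
        one_div_le_one_div_of_le (Real.log_pos hβ)
          (Real.log_le_log (by linarith) (by linarith [ht.1]))
    rw [intervalIntegral.integral_const, smul_eq_mul, mul_one_div] at this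
    linarith

lemma iter {β b ε : ℝ} (hβ : 1 < β) (hb : β ≤ b) (hε : 0 < ε) :
    ∃ η : ℝ, 0 < η ∧ η < 1 ∧ ∃ τ0 : ℝ, 0 < τ0 ∧ ∀ τ, τ0 ≤ τ → ∀ (t : ℕ) (u : ℕ → ℝ),
      (∀ s, β ≤ u s) → (∀ s < t, u s + Real.log ((1 - η) * u s) / τ ≤ u (s + 1)) →
      u t ≤ b + η → (t : ℝ) ≤ τ * ((∫ x in β..b, 1 / Real.log x) + ε) := by
  set F := ∫ x in β..b, 1 / Real.log x with hF
  set lam := Real.log β with hlam
  have hl : 0 < lam := Real.log_pos hβ
  have hc : ContinuousAt (fun x : ℝ => (F + x / lam) * (lam + x) - (F + ε) * (lam - x)) 0 := by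
    fun_prop
  have h0 : (F + 0 / lam) * (lam + 0) - (F + ε) * (lam - 0) < 0 := by
    have := mul_pos hε hl
    simp only [zero_div, add_zero, sub_zero]
    linarith
  obtain ⟨d, hd, hball⟩ := Metric.eventually_nhds_iff.1 (hc.eventually_lt continuousAt_const h0)
  set ρ := min (d / 2) (lam / 2) with hρ
  have hρ0 : 0 < ρ := lt_min (half_pos hd) (half_pos hl)
  have hρ1 : ρ ≤ lam / 2 := min_le_right _ _
  have hx : (F + ρ / lam) * (lam + ρ) - (F + ε) * (lam - ρ) < 0 := hball (by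
    rw [Real.dist_eq, sub_zero, abs_of_pos hρ0]
    exact (min_le_left _ _).trans_lt (half_lt_self hd))
  have he0 := Real.exp_pos (-ρ)
  have he1 : Real.exp (-ρ) < 1 := Real.exp_lt_one_iff.2 (by linarith)
  refine ⟨1 - Real.exp (-ρ), by linarith, by linarith, 1 / ρ, by positivity, ?_⟩
  intro τ hτ t u h1 h2 h3
  have hτ0 : 0 < τ := lt_of_lt_of_le (by positivity) hτ
  have hτ1 : 1 ≤ ρ * τ := by rwa [div_le_iff₀ hρ0, mul_comm] at hτ
  have key : ∀ s ≤ t, (s : ℝ) * ((lam - ρ) / (τ * (lam + ρ))) ≤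
      ∫ x in β..u s, 1 / Real.log x := by
    intro s
    induction s with
    | zero =>
      intro _
      have := (int_ge hβ le_rfl (h1 0)).1
      rw [intervalIntegral.integral_same, zero_add] at this
      rw [Nat.cast_zero, zero_mul]
      exact (div_nonneg (by linarith [h1 0]) (Real.log_nonneg (by linarith [h1 0]))).trans this
    | succ s ih =>
      intro hs
      have a1 := h2 s hs
      have a0 : 0 < u s := by linarith [h1 s]
      rw [sub_sub_cancel, Real.log_mul he0.ne' a0.ne', Real.log_exp] at a1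
      have a2 : lam ≤ Real.log (u s) := Real.log_le_log (by linarith) (h1 s)
      set y := Real.log (u s) with hy
      set h := (-ρ + y) / τ with hh
      have a3 : 0 < h := div_pos (by linarith) hτ0
      have a4 := (int_ge hβ (h1 s) (le_add_of_nonneg_right a3.le)).1
      have a5 := (int_ge hβ ((h1 s).trans (le_add_of_nonneg_right a3.le)) a1).1
      have a6 : 0 ≤ (u (s + 1) - (u s + h)) / Real.log (u (s + 1)) :=
        div_nonneg (by linarith) (Real.log_nonneg (by linarith [h1 (s + 1)]))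
      have a7 : Real.log (u s + h) ≤ y + ρ := by
        have b1 : u s + h = u s * (1 + h / u s) := by field_simp
        have b2 := Real.log_le_sub_one_of_pos (x := 1 + h / u s) (by positivity)
        have b3 := Real.log_le_sub_one_of_pos a0
        have b4 : h / u s ≤ ρ := by
          rw [div_le_iff₀ a0, hh, div_le_iff₀ hτ0]
          nlinarith
        rw [b1, Real.log_mul a0.ne' (by positivity)]
        linarith
      have a8 : (lam - ρ) / (τ * (lam + ρ)) ≤ (u s + h - u s) / Real.log (u s + h) := by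
        have b1 : 0 < Real.log (u s + h) := Real.log_pos (by linarith [h1 s])
        rw [add_sub_cancel_left]
        refine le_trans ?_ (div_le_div_of_nonneg_left a3.le b1 a7)
        rw [hh, div_div, div_le_div_iff₀ (by positivity) (mul_pos hτ0 (by linarith))]
        have b2 : (lam - ρ) * (y + ρ) ≤ (-ρ + y) * (lam + ρ) := by nlinarith
        have := mul_le_mul_of_nonneg_left b2 hτ0.le
        linarith
      have a9 := ih (by omega)
      push_cast
      linarith
  have c1 := key t le_rfl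
  have c2 : ∫ x in β..u t, 1 / Real.log x ≤ F + ρ / lam := by
    have d0 : 1 - Real.exp (-ρ) ≤ ρ := by linarith [Real.add_one_le_exp (-ρ)]
    have d1 := (int_ge hβ (h1 t) (show u t ≤ b + ρ by linarith)).1
    have d2 := (int_ge hβ hb (show b ≤ b + ρ by linarith)).2
    have d3 : 0 ≤ (b + ρ - u t) / Real.log (b + ρ) :=
      div_nonneg (by linarith) (Real.log_nonneg (by linarith))
    rw [add_sub_cancel_left] at d2
    linarith
  have c3 := c1.trans c2
  rw [← mul_div_assoc, div_le_iff₀ (by positivity)] at c3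
  have c4 := mul_le_mul_of_nonneg_left hx.le hτ0.le
  refine le_of_mul_le_mul_right ?_ (show 0 < lam - ρ by linarith)
  nlinarith

theorem num (A m a : ℕ) {β b ε : ℝ} (hA : 2 ≤ A) (hβ : 1 < β) (hb : β ≤ b) (hε : 0 < ε) :
    ∃ η : ℝ, 0 < η ∧ ∀ C₁ C₃ : ℝ, 0 ≤ C₁ → 1 ≤ C₃ → ∃ T1 C : ℝ, 1 ≤ T1 ∧ 1 ≤ C ∧
      ∀ (T : ℝ) (H : ℕ → ℕ) (M : ℕ), T1 ≤ T → Monotone H → (∀ j, H j ≤ (j + 1) ^ m) →
        (∀ j, H j ≤ H M) → Ineq2 a A M H T (T ^ C₁) → ∀ l : ℕ, (l : ℝ) ≤ C₃ * T ^ (b + η) →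
        (H l : ℝ) ≤ C * T ^ (β * m + Real.log A * ((∫ x in β..b, 1 / Real.log x) + ε)) := by
  obtain ⟨η, hη, hη1, τ0, hτ0, hit⟩ := iter hβ hb hε
  refine ⟨η / 2, half_pos hη, fun C₁ C₃ hC₁ hC₃ => ?_⟩
  obtain ⟨W0, hW0⟩ := exists_nat_ge (2 * (1 + 4 * C₁) / η)
  set W := W0 + 2 with hW
  set K : ℝ := 4 * a + 2 * m + Real.log A with hK
  have hlA : 0 ≤ Real.log A := Real.log_natCast_nonneg A
  have hK0 : 0 ≤ K := by positivity
  have hlC : 0 ≤ Real.log C₃ := Real.log_nonneg hC₃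
  have hA0 : (2 : ℝ) ≤ A := by exact_mod_cast hA
  have h3m : (1 : ℝ) ≤ 3 ^ m := one_le_pow₀ (by norm_num)
  refine ⟨Real.exp (τ0 + 2 * (1 + W + K) / η + 2 * Real.log C₃ / η), A * (2 * 3 ^ m),
    Real.one_le_exp (by positivity), by nlinarith, ?_⟩
  intro T H M hT hH hbd hM hI l hl
  have hT0 : 0 < T := (Real.exp_pos _).trans_le hT
  have hτ := (Real.le_log_iff_exp_le hT0).2 hT
  have p1 : 0 ≤ 2 * (1 + W + K) / η := by positivity
  have p2 : 0 ≤ 2 * Real.log C₃ / η := by positivity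
  have hτp : 0 < Real.log T := by linarith
  have hT1 : 1 ≤ T := ((Real.log_pos_iff hT0.le).1 hτp).le
  have hy : 1 ≤ T ^ β := Real.one_le_rpow hT1 (by linarith)
  set F := ∫ x in β..b, 1 / Real.log x with hF
  have hF0 : 0 ≤ F := by
    have := (int_ge hβ le_rfl hb).1
    rw [intervalIntegral.integral_same, zero_add] at this
    exact (div_nonneg (by linarith) (Real.log_nonneg (by linarith))).trans this
  set l1 := ⌈2 * T ^ β⌉₊ with hl1
  have q1 : 2 * T ^ β ≤ l1 := Nat.le_ceil _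
  have q2 : (l1 : ℝ) ≤ 3 * T ^ β := by
    have := Nat.ceil_lt_add_one (show 0 ≤ 2 * T ^ β by linarith)
    linarith
  have q3 : 1 ≤ l1 := by exact_mod_cast (show (1 : ℝ) ≤ l1 by linarith)
  set N := 2 * l1 ^ m with hN
  have hN1 : 1 ≤ N := by
    have := Nat.one_le_pow m l1 q3
    omega
  have q4 : (N : ℝ) ≤ 2 * 3 ^ m * T ^ (β * m) := by
    rw [hN, Real.rpow_mul hT0.le, Real.rpow_natCast, mul_assoc, ← mul_pow]
    push_cast
    gcongr
  have fin : ∀ t : ℕ, H l ≤ A ^ (t + 1) * N → (t : ℝ) ≤ Real.log T * (F + ε) →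
      (H l : ℝ) ≤ A * (2 * 3 ^ m) * T ^ (β * m + Real.log A * (F + ε)) := by
    intro t h1 h2
    have h3 : (A : ℝ) ^ t ≤ T ^ (Real.log A * (F + ε)) := by
      rw [Real.rpow_def_of_pos hT0, ← Real.exp_log (show (0 : ℝ) < A by linarith),
        ← Real.exp_nat_mul, Real.log_exp]
      exact Real.exp_le_exp.2 (by nlinarith)
    calc (H l : ℝ) ≤ (A : ℝ) ^ (t + 1) * N := by exact_mod_cast h1
      _ ≤ T ^ (Real.log A * (F + ε)) * A * (2 * 3 ^ m * T ^ (β * m)) := by
          rw [pow_succ]; gcongr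
      _ = _ := by rw [Real.rpow_add hT0]; ring
  by_cases hc : H l < N
  · refine fin 0 (hc.le.trans (Nat.le_mul_of_pos_left _ (by positivity))) ?_
    rw [Nat.cast_zero]; positivity
  have hd : H l / N ≠ 0 := (Nat.div_pos (not_lt.1 hc) hN1).ne'
  set t := Nat.log A (H l / N) with ht
  have r1 : A ^ t * N ≤ H l := (Nat.le_div_iff_mul_le hN1).1 (Nat.pow_log_le_self A hd)
  have r2 : H l < A ^ (t + 1) * N :=
    (Nat.div_lt_iff_lt_mul hN1).1 (Nat.lt_pow_succ_log_self (by omega) _)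
  have r3 : T ^ β ≤ Jd H M N := by
    have a1 : ∀ j < l1, 2 * H j ≤ N := fun j hj =>
      Nat.mul_le_mul_left 2 ((hbd j).trans (Nat.pow_le_pow_left hj m))
    have a2 : l1 ≤ M := by
      by_contra h0
      have := a1 M (not_le.1 h0)
      have := hM l
      omega
    have a3 := card_nsmul_le_sum (range l1) (fun j => 2 * (N - H j)) N fun j hj => by
      have := a1 j (mem_range.1 hj)
      omega
    rw [card_range, smul_eq_mul, ← mul_sum] at a3
    have a4 : l1 * N ≤ 2 * Sd H M N :=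
      a3.trans (Nat.mul_le_mul_left _ (sum_le_sum_of_subset (range_mono a2)))
    have a5 : (l1 : ℝ) * N ≤ 2 * Sd H M N := by exact_mod_cast a4
    have a6 : (0 : ℝ) < N := by exact_mod_cast hN1
    rw [Jd, le_div_iff₀ a6]
    nlinarith
  have r4 : ∀ s, T ^ β ≤ Jd H M (A ^ s * N) := fun s =>
    r3.trans (jd_mono hN1 (Nat.one_le_pow _ _ (by omega)))
  have r5 : ∀ s, β ≤ Real.log (Jd H M (A ^ s * N)) / Real.log T := fun s => by
    rw [le_div_iff₀ hτp, ← Real.log_rpow hT0]
    exact Real.log_le_log (by linarith) (r4 s)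
  refine fin t r2.le (hit _ (by linarith) t
    (fun s => Real.log (Jd H M (A ^ s * N)) / Real.log T) r5 (fun s hs => ?_) ?_)
  · have a1 : A * (A ^ s * N) ≤ H M := by
      rw [← mul_assoc, ← pow_succ']
      exact ((Nat.mul_le_mul_right _ (Nat.pow_le_pow_right (by omega) hs)).trans r1).trans (hM l)
    have a2 := step (W := W) hH hbd hI hA (Nat.mul_pos (by positivity) hN1) a1 (by omega) hT1 hC₁
      (hy.trans (r4 s))
    have a0 : 0 < Jd H M (A ^ s * N) := by linarith [r4 s]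
    have a3 := ratio (u := Real.log (Jd H M (A ^ s * N)) / Real.log T) hη hη1.le hC₁ hK0
      (W := W) (τ := Real.log T) (by
        rw [div_le_iff₀ hη] at hW0
        rw [hW]; push_cast; nlinarith) (by exact_mod_cast (by omega : 2 ≤ W)) (by
        have : 2 * (1 + W + K) / η ≤ Real.log T := by linarith
        rwa [div_le_iff₀ hη, mul_comm _ η] at this) (by linarith [r5 s]) a0.le
      (by rw [div_mul_cancel₀ _ hτp.ne']; exact a2)
    have a4 : 0 < (1 - η) * (Real.log (Jd H M (A ^ s * N)) / Real.log T) :=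
      mul_pos (by linarith) (by linarith [r5 s])
    have a5 := Real.log_le_log (mul_pos a4 a0) a3
    rw [Real.log_mul a4.ne' a0.ne', ← mul_assoc A, ← pow_succ'] at a5
    rw [← add_div]
    exact div_le_div_of_nonneg_right (by linarith) hτp.le
  · have a1 := Real.log_le_log (by linarith [r4 t]) ((jd_le (M := M) hH r1).trans hl)
    rw [Real.log_mul (by linarith) (by positivity), Real.log_rpow hT0] at a1
    have a2 : 2 * Real.log C₃ / η ≤ Real.log T := by linarith
    rw [div_le_iff₀ hη] at a2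
    rw [div_le_iff₀ hτp]
    linarith

end Pool.Agent.DC83
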