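import Pool.Agent.Lib.DC83.Count
import Pool.Agent.Lib.DC83.Num

/-! Counting points: the colouring gives saturation, the Frobenius classes slow the growth. -/

namespace Pool.Agent.DC83

open MvPolynomial Finset Module Pool.Agent.NF98

lemma hf_orb_eq {n r N : ℕ} {G : Subgroup (Equiv.Perm (Fin n))} (e : Fin N ≃ G) (l : ℕ)
    (c0 : Fin r) {ι F : Type} [Field F] (Z : ι → V n r → F) :
    Hf (fun x => orb e l c0 (Z x)) = Hf Z := by
  funext j
  have h1 : Vs (fun x => orb e l c0 (Z x)) j = Vs Z j := by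
    refine le_antisymm (Submodule.span_le.2 ?_) (Submodule.span_le.2 ?_)
    · rintro w ⟨q, hq, rfl⟩
      have h2 := HILB.mem Z j (∏ v, orb e l c0 (X : V n r → R n r) v ^ q v) (by
        refine (totalDegree_finsetProd _ _).trans (le_trans ?_ hq)
        rw [Finsupp.degree_eq_sum]
        exact sum_le_sum fun v _ => (totalDegree_pow _ _).trans
          ((Nat.mul_le_mul_left _ (orb_deg e l c0 v)).trans_eq (mul_one _)))
      have h3 : evs (fun x => orb e l c0 (Z x)) q =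
          fun x => aeval (Z x) (∏ v, orb e l c0 (X : V n r → R n r) v ^ q v) := by
        funext x
        simp only [evs, map_prod, map_pow, orb_map, aeval_X]
      rw [h3]
      exact h2
    · rintro w ⟨q, hq, rfl⟩
      have h2 := HILB.mem (fun x => orb e l c0 (Z x)) j
        (∏ v, (X (e.symm 1, (finProdFinEquiv v).succ) : R N (n * r + 1)) ^ q v) (by
        refine (totalDegree_finsetProd _ _).trans (le_trans ?_ hq)
        rw [Finsupp.degree_eq_sum]
        exact sum_le_sum fun v _ => (totalDegree_X_pow _ _).le)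
      have h3 : evs Z q = fun x => aeval (orb e l c0 (Z x))
          (∏ v, (X (e.symm 1, (finProdFinEquiv v).succ) : R N (n * r + 1)) ^ q v) := by
        funext x
        simp only [evs, map_prod, map_pow, aeval_X, orb_succ, Equiv.symm_apply_apply,
          Equiv.apply_symm_apply, OneMemClass.coe_one, Equiv.Perm.coe_one, id_eq]
      rw [h3]
      exact h2
  rw [Hf, Hf, h1]

lemma exists_theta (y lA F ε : ℝ) (hε : 0 < ε) :
    ∃ θ : ℝ, 0 < θ ∧ (y + lA * (F + θ)) * (1 + θ) ≤ y + lA * F + ε := by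
  have hc : ContinuousAt (fun x : ℝ => (y + lA * (F + x)) * (1 + x)) 0 := by fun_prop
  have h0 : (y + lA * (F + 0)) * (1 + 0) < y + lA * F + ε := by simpa using hε
  obtain ⟨δ, hδ, hb⟩ := Metric.eventually_nhds_iff.1 (hc.eventually_lt continuousAt_const h0)
  exact ⟨δ / 2, half_pos hδ,
    (hb (by rw [Real.dist_eq, sub_zero, abs_of_pos (half_pos hδ)]; linarith)).le⟩

theorem count2 (n r b A : ℕ) (c0 : Fin r) (β ε : ℝ) (hA : 2 ≤ A) (hβ : 1 < β) (hβb : β ≤ b)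
    (hε : 0 < ε) (G : Subgroup (Equiv.Perm (Fin n))) (hG : Nat.card G ≤ A)
    (P : Fin n → Fin r → Fin b) (hP : ∀ g ∈ G, (∀ i, P (g i) = P i) → g = 1) :
    ∃ δ : R n r, δ ≠ 0 ∧ Dif δ c0 ∧ ∃ C : ℝ, 1 ≤ C ∧ ∀ (T : ℝ) (S : Finset (V n r → Ob)), 2 ≤ T →
      (∀ Z ∈ S, StabG G Z ∧ Bdd T Z ∧ aeval Z δ ≠ 0) →
      (S.card : ℝ) ≤ C * T ^ (β * (n * r : ℕ) + Real.log A * (∫ x in β..b, 1 / Real.log x) + ε) := by
  have hb : 1 ≤ b := by exact_mod_cast (show (1 : ℝ) ≤ b by linarith)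
  set F := ∫ x in β..b, 1 / Real.log x with hF
  have hF0 : 0 ≤ F := by
    have := (int_ge hβ le_rfl hβb).1
    rw [intervalIntegral.integral_same, zero_add] at this
    exact (div_nonneg (by linarith) (Real.log_nonneg (by linarith))).trans this
  have hlA : 0 ≤ Real.log A := Real.log_natCast_nonneg A
  obtain ⟨θ, hθ, hth⟩ := exists_theta (β * (n * r : ℕ)) (Real.log A) F ε hε
  obtain ⟨η0, hη0, hnum⟩ := num A (n * r) (n * r + 1) hA hβ hβb hθ
  obtain ⟨k, e, θ', hk, he, hθ', hpar⟩ := COUNT.exists_par b (n * r + 1) 1 η0 hη0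
  obtain ⟨l0, hbl, hl0⟩ := Nat.exists_infinite_primes b
  have : Fact l0.Prime := ⟨hl0⟩
  have eG : Fin (Nat.card G) ≃ G := (Finite.equivFin G).symm
  generalize Nat.card G = N at hG eG
  have : Nonempty (Fin N) := ⟨eG.symm 1⟩
  set s := b * k + (n * r + 1) * b + 1 with hs
  obtain ⟨δ, hR, hδ, hO⟩ := exists_delta eG l0 c0 hbl hb hk P hP
  obtain ⟨c, hc⟩ := blk_INEQ (blk_ONEP (blk_RED blk_FILT blk_FROB) blk_DETP blk_HILB) blk_BASIS
    blk_ARCH N _ δ 0 s k hR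
  obtain ⟨C₁, hC₁, hd⟩ := blk_DBND N _ δ
  obtain ⟨η, C₂, hη, hC₂, hit⟩ := blk_ITER θ hθ
  obtain ⟨C₃, hC₃, hnb⟩ := blk_NUMB (N * (s + (n * r + 1)) + 2) s k c (n * r) C₁ η e hk hC₁ hη he
  obtain ⟨T1, C₄, hT1', hC₄, hgr⟩ := hnum C₁ (2 * C₃) hC₁ (by linarith)
  set x : ℝ := ((s : ℝ) + 2) / k + e with hx
  have hx0 : 0 ≤ x := by positivity
  have hxb : x ≤ b + η0 := by
    have := mul_nonneg hx0 hθ'.le
    simp only [Nat.cast_one, mul_one] at hpar
    linarith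
  set κ : ℝ := l0 * n * n + 1 with hκ
  have hκ1 : 1 ≤ κ := le_add_of_nonneg_left (by positivity)
  set y : ℝ := β * (n * r : ℕ) + Real.log A * F + ε with hy
  have hy0 : 0 ≤ y := by positivity
  have hκ2 : 1 ≤ T1 * κ := one_le_mul_of_one_le_of_one_le hT1' hκ1
  refine ⟨aeval (orb eG l0 c0 (X : V n r → R n r)) δ *
    ∏ p ∈ (univ : Finset (Fin n)).offDiag, (X (p.1, c0) - X (p.2, c0)), mul_ne_zero hδ ?_,
    fun i j hij => Dvd.dvd.mul_left ?_ _, C₂ * C₄ ^ (1 + θ) * (T1 * κ) ^ y, ?_, ?_⟩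
  · exact prod_ne_zero_iff.2 fun p hp => sub_ne_zero.2 fun e =>
      (mem_offDiag.1 hp).2.2 (congrArg Prod.fst (X_injective e))
  · exact dvd_prod_of_mem (fun p : Fin n × Fin n => (X (p.1, c0) - X (p.2, c0) : R n r))
      (a := (i, j)) (by simp [hij])
  · exact one_le_mul_of_one_le_of_one_le (one_le_mul_of_one_le_of_one_le hC₂
      (Real.one_le_rpow hC₄ (by linarith))) (Real.one_le_rpow hκ2 hy0)
  intro T0 S hT02 hS
  rw [mul_assoc, ← Real.mul_rpow (by linarith) (by linarith)]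
  have hT2 : 2 ≤ T1 * κ * T0 := by nlinarith
  have hT3 : T1 ≤ T1 * κ * T0 := by nlinarith
  have hbd0 : ∀ Z : S, Bdd (T1 * κ * T0) (orb eG l0 c0 (Z : V n r → Ob)) := fun Z φ v =>
    (bdd_orb eG l0 c0 (by linarith) (hS Z Z.2).2.1 φ v).trans (by
      rw [← hκ, mul_assoc T1]
      exact le_mul_of_one_le_left (by positivity) hT1')
  have hbd1 : ∀ Z : S, Bdd (T1 * κ * T0) (Z : V n r → Ob) := fun Z φ v =>
    ((hS Z Z.2).2.1 φ v).trans (le_mul_of_one_le_left (by linarith) hκ2)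
  generalize T1 * κ * T0 = T at hT2 hT3 hbd0 hbd1 ⊢
  have hT1 : (1 : ℝ) ≤ T := by linarith
  have hT0 : (0 : ℝ) < T := by linarith
  have hex : ∀ Z : S, ∃ Δ : ℤ, Good δ 0 (orb eG l0 c0 (Z : V n r → Ob)) Δ := fun Z =>
    hO Z (hS Z Z.2).1 fun h0 => (hS Z Z.2).2.2 (by
      rw [map_mul]
      exact mul_eq_zero_of_left ((aeval_orb eG l0 c0 (Z : V n r → Ob) δ).trans h0) _)
  choose Δ hΔ using hex
  have hΔB : ∀ Z, |(Δ Z : ℝ)| ≤ T ^ C₁ := fun Z => hd T _ (Δ Z) hT2 (hbd0 Z) (hΔ Z).val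
  set Zf : S → V n r → Fb := fun Z v => ((Z : V n r → Ob) v : Fb) with hZf
  have hB1 : (1 : ℝ) ≤ T ^ C₁ := Real.one_le_rpow hT1 hC₁
  have hineq := hc S (fun Z => orb eG l0 c0 (Z : V n r → Ob)) Δ T (T ^ C₁) hT1 (fun Z =>
    ⟨hΔ Z, hbd0 Z, hΔB Z⟩)
  have h1 : (fun (Z : S) v => ((orb eG l0 c0 (Z : V n r → Ob) v : Ob) : Fb)) =
      fun Z : S => orb eG l0 c0 (Zf Z) := by
    funext Z v
    exact orb_map eG l0 c0 (integralClosure ℤ Fb).val (Z : V n r → Ob) v
  rw [h1, hf_orb_eq] at hineq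
  obtain ⟨-, hmono, hbd, hinj, -⟩ := blk_HILB S (V n r) Fb Zf
  have hcard : Fintype.card (V n r) = n * r := by simp [V]
  rw [hcard] at hbd
  have hsat := hnb (Hf Zf) T hT2 hmono hbd
    (blk_NUMA blk_MERT _ s k c (Hf Zf) T (T ^ C₁) hB1 hmono hineq)
  have hZinj : Function.Injective Zf := by
    intro Z W h
    apply Subtype.ext
    funext v
    exact Subtype.ext (congrFun h v)
  have hI2 := ineq2 (fun (a : Fin N) (v : V n r) => ((eG a : Equiv.Perm (Fin n)) v.1, v.2))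
    (fun Z : S => (Z : V n r → Ob)) Δ hT1 (A := A) (by simpa using hG)
    (fun Z p hp hpΔ => fro_orb eG hp (hΔ Z) hpΔ) (fun Z => (hΔ Z).ne) hΔB hbd1 (Fintype.card S)
  rw [hcard] at hI2
  have hTx : (1 : ℝ) ≤ T ^ x := Real.one_le_rpow hT1 hx0
  have hy1 : (1 : ℝ) ≤ C₃ * T ^ x := by nlinarith
  set l := ⌈C₃ * T ^ x⌉₊ with hl
  have hl1 : 1 ≤ l := Nat.one_le_ceil_iff.2 (by linarith)
  have hl2 : (l : ℝ) ≤ 2 * C₃ * T ^ (b + η0) := by
    have h2 := Nat.ceil_lt_add_one (show 0 ≤ C₃ * T ^ x by linarith)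
    have h3 := mul_le_mul_of_nonneg_left (Real.rpow_le_rpow_of_exponent_le hT1 hxb)
      (show 0 ≤ C₃ by linarith)
    linarith
  have hBl := hgr T (Hf Zf) (Fintype.card S) hT3 hmono hbd (fun j => by
    rw [hinj hZinj]
    exact (Submodule.finrank_le _).trans (Module.finrank_fintype_fun_eq_card Fb).le) hI2 l hl2
  have hfin := hit (Hf Zf) l (Fintype.card S) _ hl1
    (one_le_mul_of_one_le_of_one_le hC₄ (Real.one_le_rpow hT1 (by positivity))) hmono
    (hinj hZinj) hBl (fun j hj => hsat j (by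
      have h1 : C₃ * T ^ x ≤ l := Nat.le_ceil _
      have h2 : (l : ℝ) ≤ j := by exact_mod_cast hj
      exact h1.trans h2))
  rw [Fintype.card_coe] at hfin
  refine hfin.trans ?_
  rw [Real.mul_rpow (by positivity) (by positivity), ← mul_assoc]
  refine mul_le_mul_of_nonneg_left ?_ (by positivity)
  rw [← Real.rpow_mul hT0.le]
  refine Real.rpow_le_rpow_of_exponent_le hT1 (le_trans (le_of_eq ?_) hth)
  push_cast
  ring

end Pool.Agent.DC83
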