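import Pool.Agent.Lib.NF98.FILT
import Pool.Agent.Lib.NF98.GRIDF
import Pool.Agent.Lib.NF98.GRID

/-! Jet interpolation near a prescribed configuration of grid points. -/

namespace Pool.Agent.DC83

open MvPolynomial Finset Module Pool.Agent.NF98 Pool.Agent.NF98.GRID

theorem grid (n r b k l : ℕ) [Fact l.Prime] (hbl : b ≤ l) (hb : 1 ≤ b) (hk : 1 ≤ k)
    (P : Fin n → Fin r → Fin b) (hP : Function.Injective P) :
    ∃ δ : R n r, aeval (fun v : V n r => ((P v.1 v.2 : ℕ) : ZMod l)) δ = 1 ∧
      Rel δ (b * k + r * b + 1) k := by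
  let g : Fin b → ZMod l := fun i => ((i : ℕ) : ZMod l)
  have hg : Function.Injective g := fun i j hij => by
    have := congrArg ZMod.val hij
    simp only [g] at this
    rw [ZMod.val_cast_of_lt (i.2.trans_le hbl), ZMod.val_cast_of_lt (j.2.trans_le hbl)] at this
    exact Fin.ext this
  let φ : R n r →+* ZMod l := eval₂Hom (Int.castRingHom _) fun v => g (P v.1 v.2)
  have hφ : Function.Surjective φ := ZMod.ringHom_surjective φ
  let π := Ideal.Quotient.mkₐ (R n r) (bb n r k)
  have hmap : Ideal.map (map φ : MvPolynomial (Fin r) (R n r) →+* _) (bb n r k) =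
      ∏ j : Fin n, (Ideal.span (Set.range fun c : Fin r =>
        (X c - C (g (P j c)) : MvPolynomial (Fin r) (ZMod l)))) ^ k := by
    rw [bb, ← Ideal.mapHom_apply, map_prod]
    refine prod_congr rfl fun j _ => ?_
    rw [map_pow, Ideal.mapHom_apply, dI, Ideal.map_span, ← Set.range_comp]
    congr 3
    funext c
    simp [φ]
  obtain ⟨δ, h1, h3⟩ := Submodule.exists_sub_one_mem_and_smul_le_of_fg_of_le_sup
    (I := RingHom.ker φ) (N := (restrictTotalDegree (Fin r) (R n r) (b * k + r * b)).map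
      π.toLinearMap) (P := ⊤) (fg_top n r k) le_rfl (by
    intro x _
    obtain ⟨F, rfl⟩ := Ideal.Quotient.mkₐ_surjective (R n r) (bb n r k) x
    obtain ⟨u, hu, hu'⟩ := blk_GRIDF blk_FILT n r b k (ZMod l) g P hb hk hg hP (map φ F)
    obtain ⟨v, hv, rfl⟩ := lift φ hφ u
    rw [← hmap, Ideal.mem_map_iff_of_surjective _ (map_surjective φ hφ)] at hu'
    obtain ⟨w, hw, hw'⟩ := hu'
    have h4 : F - v - w ∈ RingHom.ker (map φ : MvPolynomial (Fin r) (R n r) →+* _) := by
      rw [RingHom.mem_ker, map_sub, map_sub, hw', sub_self]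
    rw [ker_map] at h4
    have h5 : π F = π v + π (F - v - w) := by
      have : π w = 0 := Ideal.Quotient.eq_zero_iff_mem.2 hw
      simp only [map_sub, this]; ring
    change π F ∈ _
    rw [h5]
    refine Submodule.add_mem_sup ⟨v, (mem_restrictTotalDegree _ _ _).2 (by omega), rfl⟩ ?_
    have := Ideal.mem_map_of_mem (Ideal.Quotient.mk (bb n r k)) h4
    rw [Ideal.map_map] at this
    exact (Ideal.smul_top_eq_map (S := MvPolynomial (Fin r) (R n r) ⧸ bb n r k)
      (RingHom.ker φ)).ge this)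
  refine ⟨δ, ?_, fun q _ => ?_⟩
  · rw [RingHom.mem_ker, map_sub, map_one, sub_eq_zero] at h1
    exact h1
  · obtain ⟨v, hv, hv'⟩ := h3 (Submodule.smul_mem_pointwise_smul (π (monomial q 1)) δ ⊤ trivial)
    refine ⟨v, Nat.lt_succ_of_le ((mem_restrictTotalDegree _ _ _).1 hv), fun j => ?_⟩
    have h4 : C δ * monomial q 1 - v ∈ bb n r k := by
      rw [← Ideal.Quotient.eq, ← smul_eq_C_mul]
      exact ((map_smul π δ _).trans hv'.symm)
    exact (Ideal.prod_le_inf.trans (Finset.inf_le (mem_univ j))) h4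

end Pool.Agent.DC83
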