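import Pool.Agent.Lib.DC83.Loc
import Pool.Agent.Lib.NF98.BASIS
import Pool.Agent.Lib.NF98.ARCH
import Pool.Agent.Lib.NF98.INEQ
import Pool.Agent.Lib.NF98.MERT
import Pool.Agent.Lib.NF98.NUMA

/-! The determinant inequality for the first `N` monomials of a basis ordered by degree. -/

namespace Pool.Agent.DC83

open MvPolynomial Finset Module Pool.Agent.NF98

/-- the sum of the degrees of the first `N` basis monomials -/
def Sd (H : ℕ → ℕ) (M N : ℕ) : ℕ := ∑ j ∈ range M, (N - H j)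

lemma basis {ι σ F : Type} [Fintype ι] [Fintype σ] [Field F] (Z : ι → σ → F) (M : ℕ) :
    ∀ N ≤ Hf Z M, ∃ B : Finset (σ →₀ ℕ), LinearIndepOn F (evs Z) (B : Set (σ →₀ ℕ)) ∧
      B.card = N ∧ ∑ e ∈ B, e.degree ≤ Sd (Hf Z) M N := by
  classical
  induction M with
  | zero =>
    intro N hN
    obtain ⟨B, h1, h2, h3, -⟩ := BASIS.step Z 0
    obtain ⟨B', h4, h5⟩ := exists_subset_card_eq (h3 ▸ hN : N ≤ B.card)
    exact ⟨B', h2.mono h4, h5, (sum_le_sum fun e he => h1 e (h4 he)).trans (by simp)⟩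
  | succ M ih =>
    intro N hN
    by_cases h : N ≤ Hf Z M
    · obtain ⟨B, h1, h2, h3⟩ := ih N h
      exact ⟨B, h1, h2, h3.trans (sum_le_sum_of_subset (range_mono M.le_succ))⟩
    obtain ⟨B, h1, h2, h3, h4⟩ := BASIS.step Z M
    obtain ⟨B', a0, a1, a2, a3⟩ := BASIS.ext Z (M + 1) B (fun e he => (h1 e he).trans M.le_succ) h2
    obtain ⟨B'', b0, b1, b2⟩ := exists_subsuperset_card_eq a0 (n := N) (by omega) (by omega)
    refine ⟨B'', a2.mono b1, b2, ?_⟩
    rw [← sum_sdiff b0]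
    have c1 : ∑ e ∈ B'' \ B, e.degree ≤ (N - Hf Z M) * (M + 1) := by
      rw [← b2, ← h3, ← card_sdiff_of_subset b0]
      exact sum_le_card_nsmul _ _ _ fun e he => a1 e (b1 (mem_sdiff.1 he).1)
    have c2 : Sd (Hf Z) (M + 1) N = (N - Hf Z M) * (M + 1) + Phi (Hf Z) M := by
      have c3 : ∑ s ∈ range M, (N - Hf Z s) =
          ∑ s ∈ range M, ((N - Hf Z M) + (Hf Z M - Hf Z s)) := by
        refine sum_congr rfl fun s hs => ?_
        have := BASIS.mono Z (mem_range.1 hs).le
        omega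
      rw [Sd, Phi, sum_range_succ, c3, sum_add_distrib, sum_const, card_range, smul_eq_mul]
      ring
    omega

/-- The inequality given by the determinant. -/
def Ineq2 (a A M : ℕ) (H : ℕ → ℕ) (T B : ℝ) : Prop :=
  ∀ N ≤ H M, ∀ (L : ℕ) (P : Finset ℕ), (∀ p ∈ P, p.Prime) → ∃ β : ℕ → ℕ,
    ∑ p ∈ P, (β p : ℝ) * Real.log p ≤ N * Real.log B ∧
    ∑ p ∈ P, ((∑ t ∈ range (L / p + 1), (N - (A * H (a * p + t * p) + β p)) : ℕ) : ℝ) *
      Real.log p ≤ Real.log (N.factorial) + Sd H M N * Real.log T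

theorem ineq2 {σ κ ι : Type} [Fintype σ] [Fintype κ] [Nonempty κ] [Fintype ι] (γ : κ → σ → σ)
    (Z : ι → σ → Ob) (Δ : ι → ℤ) {T B : ℝ} (hT : 1 ≤ T) {A : ℕ} (hA : Fintype.card κ ≤ A)
    (h : ∀ x (p : ℕ), p.Prime → ¬ (p : ℤ) ∣ Δ x → Fro γ (Z x) p) (h0 : ∀ x, Δ x ≠ 0)
    (hB : ∀ x, |(Δ x : ℝ)| ≤ B) (hZ : ∀ x (φ : Fb →+* ℂ) v, ‖φ (Z x v : Fb)‖ ≤ T) (M : ℕ) :
    Ineq2 (Fintype.card σ + 1) A M (Hf fun x v => (Z x v : Fb)) T B := by
  intro N hN L P hP
  obtain ⟨Bs, b1, b2, b3⟩ := basis (fun x v => (Z x v : Fb)) M N hN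
  set H := Hf fun x v => (Z x v : Fb) with hH
  let e0 : Fin N ≃ Bs := (Bs.equivFinOfCardEq b2).symm
  obtain ⟨col, hdet⟩ := BASIS.cols (Matrix.of fun i j => evs (fun x v => (Z x v : Fb)) (e0 i) j)
    (LinearIndependent.comp b1 e0 e0.injective)
  set e : Fin N → σ →₀ ℕ := fun i => e0 i with he0
  have he : ∑ i, (e i).degree ≤ Sd H M N := by
    rw [he0, e0.sum_comp fun x => (x : σ →₀ ℕ).degree, sum_coe_sort Bs fun x => x.degree]
    exact b3
  refine ⟨fun p => (univ.filter fun j => (p : ℤ) ∣ Δ (col j)).card, ?_, ?_⟩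
  · have h1 : ∀ p : ℕ, ((univ.filter fun j => (p : ℤ) ∣ Δ (col j)).card : ℝ) * Real.log p =
        ∑ j, if (p : ℤ) ∣ Δ (col j) then Real.log p else 0 := fun p => by
      rw [← sum_filter, sum_const, nsmul_eq_mul]
    simp only [h1]
    rw [sum_comm]
    refine (sum_le_sum fun j _ => INEQ.sum_log_le P hP (h0 (col j)) (hB (col j))).trans ?_
    simp
  · set E : ℕ → ℕ := fun p => ∑ t ∈ range (L / p + 1),
      (N - (A * H ((Fintype.card σ + 1) * p + t * p) +
        (univ.filter fun j => (p : ℤ) ∣ Δ (col j)).card)) with hE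
    set D : Matrix (Fin N) (Fin N) Ob := Matrix.of fun i j => ∏ v, Z (col j) v ^ e i v with hD
    have hmap : ((D.det : Ob) : Fb) =
        (Matrix.of fun i j => evs (fun x v => (Z x v : Fb)) (e i) (col j)).det := by
      have := RingHom.map_det (algebraMap Ob Fb) D
      refine this.trans (congrArg Matrix.det ?_)
      ext i j
      simp [hD, evs]
    have hne : D.det ≠ 0 := fun h0 => hdet (by
      refine Eq.trans hmap.symm ?_
      rw [h0]; rfl)
    have hdvd : ((∏ p ∈ P, p ^ E p : ℕ) : Ob) ∣ D.det := by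
      rw [Nat.cast_prod]
      refine Finset.prod_dvd_of_coprime (fun p hp q hq hpq => ?_) fun p hp => ?_
      · exact (Nat.Coprime.pow _ _ ((Nat.coprime_primes (hP p hp) (hP q hq)).2 hpq)).cast
      · rw [Nat.cast_pow]
        refine (pow_dvd_pow _ (sum_le_sum fun t _ => ?_)).trans
          (onep γ Z Δ (hP p hp) (fun x => h x p (hP p hp)) N (L / p + 1) e col)
        exact Nat.sub_le_sub_left (Nat.add_le_add_right (Nat.mul_le_mul_right _ hA) _) _
    have hT0 : (0 : ℝ) < T := by linarith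
    have hle := blk_ARCH.1 D.det _ (N.factorial * T ^ Sd H M N) hne hdvd (by
      intro φ
      rw [hmap, RingHom.map_det]
      refine (blk_ARCH.2 _ _ (fun i => T ^ (e i).degree) fun i j => ?_).trans ?_
      · simp only [RingHom.mapMatrix_apply, Matrix.map_apply, Matrix.of_apply, evs, map_prod,
          map_pow, norm_prod, norm_pow]
        rw [Finsupp.degree_eq_sum, ← prod_pow_eq_pow_sum]
        exact prod_le_prod (fun v _ => by positivity) fun v _ =>
          pow_le_pow_left₀ (norm_nonneg _) (hZ (col j) φ v) _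
      · rw [prod_pow_eq_pow_sum]
        exact mul_le_mul_of_nonneg_left (pow_le_pow_right₀ hT he) (Nat.cast_nonneg _))
    have hpos : ∀ p ∈ P, (0 : ℝ) < (p : ℝ) ^ E p := fun p hp =>
      pow_pos (Nat.cast_pos.2 (hP p hp).pos) _
    push_cast at hle
    have := Real.log_le_log (prod_pos hpos) hle
    rw [Real.log_prod fun p hp => (hpos p hp).ne', Real.log_mul
      (Nat.cast_pos.2 (Nat.factorial_pos _)).ne' (pow_pos hT0 _).ne', Real.log_pow] at this
    simp only [Real.log_pow] at this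
    exact this

/-- The inequality in closed form. -/
theorem closed {a A M : ℕ} {H : ℕ → ℕ} {T B : ℝ} (hH : Monotone H) (hI : Ineq2 a A M H T B)
    {N : ℕ} (hN : N ≤ H M) {L W : ℕ} (hW : 2 ≤ W) (hL : 1 ≤ L) :
    (1 - 1 / (W : ℝ)) * (∑ j ∈ range L, (N - A * H j) : ℕ) * (Real.log L - 1 - W) ≤
      N * Real.log N + Sd H M N * Real.log T + 2 * a * L * N + 2 * L / W * (N * Real.log B) := by
  obtain ⟨β, h1, h2⟩ := hI N hN L ((Ioc W L).filter Nat.Prime) fun p hp => (mem_filter.1 hp).2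
  set P := (Ioc W L).filter Nat.Prime with hP
  set Ψ := ∑ j ∈ range L, (N - A * H j) with hΨ
  have hW0 : (2 : ℝ) ≤ W := by exact_mod_cast hW
  have hW1 : (0 : ℝ) ≤ 1 - 1 / W := by
    rw [sub_nonneg, div_le_one (by linarith)]; linarith
  have key : ∀ p ∈ P, (1 - 1 / (W : ℝ)) * Ψ * (Real.log p / ((p : ℝ) - 1)) ≤
      ((∑ t ∈ range (L / p + 1), (N - (A * H (a * p + t * p) + β p)) : ℕ) : ℝ) * Real.log p +
        a * N * Real.log p + 2 * L / W * (β p * Real.log p) := by
    intro p hp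
    obtain ⟨hp1, hp2⟩ := mem_Ioc.1 (mem_filter.1 hp).1
    have hp0 : 0 < p := by omega
    have hpR : (W : ℝ) ≤ p := by exact_mod_cast hp1.le
    have hlog : 0 ≤ Real.log p := Real.log_natCast_nonneg p
    have hJ : ((L / p + 1 : ℕ) : ℝ) ≤ 2 * L / W := by
      have a1 : (L / p + 1) * W ≤ 2 * L := by
        have := Nat.div_mul_le_self L p
        nlinarith [Nat.zero_le (L / p)]
      rw [le_div_iff₀ (by linarith)]
      exact_mod_cast a1
    have h3 : Ψ ≤ a * p * N + p * (∑ t ∈ range (L / p + 1),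
        (N - (A * H (a * p + t * p) + β p)) + (L / p + 1) * β p) := by
      have a1 : L ≤ a * p + (L / p + 1) * p := by
        have := Nat.lt_div_mul_add (a := L) hp0
        nlinarith [Nat.zero_le (a * p)]
      refine (sum_le_sum_of_subset (range_mono a1)).trans ((NUMA.cover (H := fun j => A * H j)
        (fun i j hij => Nat.mul_le_mul_left A (hH hij)) _ _ _ _).trans ?_)
      refine Nat.add_le_add_left (Nat.mul_le_mul_left _ ?_) _
      have a2 : (L / p + 1) * β p = ∑ _t ∈ range (L / p + 1), β p := by simp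
      rw [a2, ← sum_add_distrib]
      exact sum_le_sum fun t _ => by omega
    set S := ∑ t ∈ range (L / p + 1), (N - (A * H (a * p + t * p) + β p))
    set J := L / p + 1
    have h4 : (Ψ : ℝ) ≤ a * p * N + p * (S + J * β p) := by exact_mod_cast h3
    have h5 : (1 - 1 / (W : ℝ)) * Ψ / (p - 1) ≤ S + a * N + 2 * L / W * β p := by
      rw [div_le_iff₀ (by linarith)]
      have b1 : (J : ℝ) * β p ≤ 2 * L / W * β p := mul_le_mul_of_nonneg_right hJ (by positivity)
      have b2 : (1 - 1 / (W : ℝ)) * p ≤ p - 1 := by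
        have : (1 : ℝ) ≤ 1 / W * p := by
          rw [one_div, ← div_eq_inv_mul, one_le_div (by linarith)]; exact hpR
        linarith
      have b3 : (0 : ℝ) ≤ S + a * N + 2 * L / W * β p := by positivity
      have b4 : (Ψ : ℝ) ≤ p * (S + a * N + 2 * L / W * β p) := by
        have := mul_le_mul_of_nonneg_left b1 (Nat.cast_nonneg (α := ℝ) p)
        linarith
      have b5 := mul_le_mul_of_nonneg_left b4 hW1
      have b6 := mul_le_mul_of_nonneg_left b2 b3
      linarith
    have h6 := mul_le_mul_of_nonneg_left h5 hlog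
    calc (1 - 1 / (W : ℝ)) * Ψ * (Real.log p / ((p : ℝ) - 1))
        = Real.log p * ((1 - 1 / (W : ℝ)) * Ψ / (p - 1)) := by ring
      _ ≤ _ := h6
      _ = _ := by ring
  have h3 := sum_le_sum key
  rw [← mul_sum, sum_add_distrib, sum_add_distrib, ← mul_sum, ← mul_sum] at h3
  have h4 := mul_le_mul_of_nonneg_left (blk_MERT L W hL)
    (show (0 : ℝ) ≤ (1 - 1 / (W : ℝ)) * Ψ by positivity)
  have h5 : ∑ p ∈ P, Real.log p ≤ 2 * L := by
    have a1 := Chebyshev.theta_le_log4_mul_x (x := L) (Nat.cast_nonneg L)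
    rw [Chebyshev.theta, Nat.floor_natCast] at a1
    have a2 : ∑ p ∈ P, Real.log p ≤ ∑ p ∈ Ioc 0 L with p.Prime, Real.log p :=
      sum_le_sum_of_subset_of_nonneg
        (filter_subset_filter _ (Ioc_subset_Ioc_left (Nat.zero_le W)))
        fun p _ _ => Real.log_natCast_nonneg p
    have a3 : Real.log 4 ≤ 2 := by
      rw [show (4 : ℝ) = 2 ^ 2 by norm_num, Real.log_pow]
      have := Real.log_two_lt_d9
      push_cast; linarith
    have a4 := mul_le_mul_of_nonneg_right a3 (Nat.cast_nonneg (α := ℝ) L)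
    linarith
  have h6 : Real.log (N.factorial) ≤ N * Real.log N := by
    rw [← Real.log_pow]
    exact Real.log_le_log (by exact_mod_cast N.factorial_pos) (by exact_mod_cast N.factorial_le_pow)
  have h7 := mul_le_mul_of_nonneg_left h5 (show (0 : ℝ) ≤ a * N by positivity)
  have h8 := mul_le_mul_of_nonneg_left h1 (show (0 : ℝ) ≤ 2 * L / W by positivity)
  linarith

end Pool.Agent.DC83
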