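import Pool.Agent.Lib.DC83.Orbit
import Pool.Agent.Lib.NF98.FROB
import Pool.Agent.Lib.NF98.DETP
import Pool.Agent.Lib.NF98.ONEP

/-! The power of one prime dividing the determinant, the columns being split according to their
Frobenius element. -/

namespace Pool.Agent.DC83

open MvPolynomial Finset Module Pool.Agent.NF98

/-- valuation rings containing the algebraic integers -/
def Over (W : ValuationSubring Fb) : Prop := ∀ x : Ob, (x : Fb) ∈ W

/-- the inclusion of the algebraic integers -/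
noncomputable def toV {W : ValuationSubring Fb} (h : Over W) : Ob →+* W :=
  (integralClosure ℤ Fb).val.toRingHom.codRestrict W h

lemma dvd_of_val {x y : Ob} (hy : y ≠ 0)
    (h : ∀ (W : ValuationSubring Fb) (hW : Over W), toV hW y ∣ toV hW x) : y ∣ x := by
  have hy' : (y : Fb) ≠ 0 := fun e => hy (Subtype.ext e)
  have : IsIntegrallyClosedIn (integralClosure ℤ Fb).toSubring Fb :=
    Subring.isIntegrallyClosedIn_iff.2 fun z hz =>
      isIntegral_trans (R := ℤ) (A := integralClosure ℤ Fb) z hz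
  have h1 : (x : Fb) / y ∈ (integralClosure ℤ Fb).toSubring := by
    by_contra h0
    obtain ⟨W, hW, h2⟩ := Subring.exists_le_valuationSubring_of_isIntegrallyClosedIn h0
    obtain ⟨w, hw⟩ := h W fun z => hW z.2
    have h3 : (x : Fb) = y * w := congrArg Subtype.val hw
    apply h2
    rw [h3, mul_div_cancel_left₀ _ hy']
    exact w.2
  exact ⟨⟨_, h1⟩, Subtype.ext (by simp [mul_div_cancel₀ _ hy'])⟩

/-- At every valuation ring above `p` Frobenius acts on the point through one of the maps `γ a`. -/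
def Fro {σ κ : Type} (γ : κ → σ → σ) (Z : σ → Ob) (p : ℕ) : Prop :=
  ∀ (W : ValuationSubring Fb) (hW : Over W), ¬ IsUnit (p : W) →
    ∃ a, ∀ v, (p : W) ∣ toV hW (Z v) ^ p - toV hW (Z (γ a v))

lemma frob_loc {N r : ℕ} {δ : R N r} {c0 : Fin r} {Z : V N r → Ob} {Δ : ℤ} {p : ℕ} (hp : p.Prime)
    (hG : Good δ c0 Z Δ) (hΔ : ¬ (p : ℤ) ∣ Δ) {A : Type} [CommRing A] [IsLocalRing A]
    (f : Ob →+* A) (hA : ¬ IsUnit (p : A)) (i : Fin N) :
    ∃ a, ∀ c, (p : A) ∣ f (Z (i, c)) ^ p - f (Z (a, c)) := by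
  classical
  have h1 : ∀ c : Fin N → Fin r, (p : A) ∣ ∏ a, (f (Z (i, c a)) ^ p - f (Z (a, c a))) := by
    intro c
    have h2 := blk_FROB N r δ c0 Ob Z Δ p hp hG hΔ 1 (∏ a, (X (c a) - C (X (a, c a)))) (fun j => by
      rw [pow_one]
      exact Ideal.mem_of_dvd _ (dvd_prod_of_mem _ (mem_univ j)) (Ideal.subset_span ⟨c j, rfl⟩)) i
    have h3 := map_dvd f h2
    simpa [eval₂_prod] using h3
  have hm : (p : A) ∈ IsLocalRing.maximalIdeal A := hA
  have hu : IsUnit (Δ : A) := by
    have c1 : IsCoprime (p : A) (Δ : A) := by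
      simpa using ((Nat.prime_iff_prime_int.1 hp).irreducible.coprime_iff_not_dvd.2 hΔ).map
        (Int.castRingHom A)
    obtain ⟨a, b, e⟩ := c1
    rcases IsLocalRing.isUnit_or_isUnit_of_add_one e with h | h
    · exact absurd (isUnit_of_mul_isUnit_right h) hA
    · exact isUnit_of_mul_isUnit_right h
  obtain ⟨a0, -, ha0⟩ := (Ideal.IsPrime.prod_mem_iff (p := IsLocalRing.maximalIdeal A)).1
    (Ideal.mem_of_dvd _ (h1 fun _ => c0) hm)
  refine ⟨a0, fun c => ?_⟩
  have h2 := h1 (Function.update (fun _ => c0) a0 c)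
  rw [← mul_prod_erase _ _ (mem_univ a0), Function.update_self] at h2
  refine (IsUnit.dvd_mul_right ?_).1 h2
  refine IsUnit.prod_iff.2 fun a ha => ?_
  rw [Function.update_of_ne (ne_of_mem_erase ha)]
  by_contra h3
  have h4 : f (Z (a0, c0)) - f (Z (a, c0)) ∈ IsLocalRing.maximalIdeal A := by
    have := sub_mem (show _ ∈ IsLocalRing.maximalIdeal A from h3) ha0
    rwa [sub_sub_sub_cancel_left] at this
  have h5 := map_dvd f (hG.dif a0 a (ne_of_mem_erase ha).symm)
  rw [map_sub, map_intCast] at h5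
  exact h4 (isUnit_of_dvd_unit h5 hu)

lemma fro_orb {n r N l : ℕ} {G : Subgroup (Equiv.Perm (Fin n))} (e : Fin N ≃ G) {c0 : Fin r}
    {δ : R N (n * r + 1)} {Z : V n r → Ob} {Δ : ℤ} {p : ℕ} (hp : p.Prime)
    (hG : Good δ 0 (orb e l c0 Z) Δ) (hΔ : ¬ (p : ℤ) ∣ Δ) :
    Fro (fun (a : Fin N) (v : V n r) => ((e a : Equiv.Perm (Fin n)) v.1, v.2)) Z p := by
  intro W hW hu
  obtain ⟨a, ha⟩ := frob_loc hp hG hΔ (toV hW) hu (e.symm 1)
  refine ⟨a, fun v => ?_⟩
  have := ha (finProdFinEquiv v).succ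
  rw [orb_succ, orb_succ] at this
  simpa only [Equiv.symm_apply_apply, Equiv.apply_symm_apply, OneMemClass.coe_one,
    Equiv.Perm.coe_one, id_eq] using this

lemma red {σ ι A : Type} [Fintype σ] [CommRing A] {p : ℕ} (hp : 2 ≤ p) (γ : σ → σ)
    (Z : ι → σ → A) (h : ∀ x v, (p : A) ∣ Z x v ^ p - Z x (γ v)) (t : ℕ)
    (F : MvPolynomial σ ℤ) : ∃ u : MvPolynomial σ ℤ,
      u.totalDegree ≤ (Fintype.card σ + 1) * p + t * p ∧
      ∀ x, (p : A) ^ (t + 1) ∣ aeval (Z x) F - aeval (Z x) u := by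
  let I : ℕ → Ideal (MvPolynomial σ ℤ) := fun t => ⨅ x,
    Ideal.comap (aeval (Z x) : MvPolynomial σ ℤ →ₐ[ℤ] A) (Ideal.span {(p : A) ^ t})
  have hI : ∀ t G, G ∈ I t ↔ ∀ x, (p : A) ^ t ∣ aeval (Z x) G := by
    intro t G
    simp only [I, Ideal.mem_iInf, Ideal.mem_comap, Ideal.mem_span_singleton]
  obtain ⟨u, hu, hu'⟩ := blk_FILT σ ℤ 1 (Set.range fun v => X v ^ p - X (γ v)) I
    (Fintype.card σ * p + 1) 0 p totalDegree_one.le (by
      rintro _ ⟨v, rfl⟩
      refine ⟨(totalDegree_sub _ _).trans (max_le (totalDegree_X_pow v p).le ?_), (hI _ _).2 ?_⟩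
      · rw [totalDegree_X]; omega
      · intro x
        simpa using h x v)
    (by
      intro t
      rw [Ideal.mul_le]
      intro a ha b hb
      rw [hI] at ha hb ⊢
      intro x
      rw [map_mul, add_comm t 1, pow_add]
      exact mul_dvd_mul (ha x) (hb x))
    (fun t => ⟨1, le_rfl, by simp⟩)
    (by
      intro q hq
      obtain ⟨v, hv⟩ : ∃ v, p ≤ q v := by
        by_contra h0
        push Not at h0
        have := sum_le_card_nsmul univ (fun c => q c) p fun c _ => (h0 c).le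
        rw [Finsupp.degree_eq_sum] at hq
        simp only [card_univ, smul_eq_mul] at this
        omega
      have h3 : q - Finsupp.single v p + Finsupp.single v p = q :=
        tsub_add_cancel_of_le (Finsupp.single_le_iff.mpr hv)
      refine ⟨monomial (q - Finsupp.single v p) 1 * X (γ v), ?_, ?_⟩
      · have h4 := congrArg Finsupp.degree h3
        rw [map_add, Finsupp.degree_single] at h4
        refine (totalDegree_mul _ _).trans_lt ?_
        rw [totalDegree_monomial _ one_ne_zero, totalDegree_X, ← h4]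
        exact Nat.add_lt_add_left hp _
      · have h5 : (monomial q 1 : MvPolynomial σ ℤ) =
            monomial (q - Finsupp.single v p) 1 * X v ^ p := by
          rw [X_pow_eq_monomial, monomial_mul, h3, one_mul]
        rw [one_mul, h5, ← mul_sub]
        exact Ideal.mul_mem_left _ _ (Ideal.subset_span ⟨v, rfl⟩))
    t F
  refine ⟨u, hu.trans (by nlinarith), fun x => ?_⟩
  rw [← map_sub]
  exact (hI _ _).1 hu' x

/-- families of vectors of `U` -/
def WW {ι F : Type} [Field F] (κ : Type) (U : Submodule F (ι → F)) : Submodule F (κ × ι → F) :=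
  ⨅ a : κ, U.comap (LinearMap.funLeft F F (Prod.mk a))

lemma mem_WW {ι F κ : Type} [Field F] {U : Submodule F (ι → F)} {w : κ × ι → F} :
    w ∈ WW κ U ↔ ∀ a, (fun x => w (a, x)) ∈ U := by
  simp only [WW, Submodule.mem_iInf, Submodule.mem_comap]
  rfl

lemma rank_WW {ι F κ : Type} [Field F] [Fintype ι] [Fintype κ] (U : Submodule F (ι → F)) :
    finrank F (WW κ U) ≤ Fintype.card κ * finrank F U := by
  let f : WW κ U →ₗ[F] (κ → U) :=
    { toFun := fun w a => ⟨fun x => w.1 (a, x), mem_WW.1 w.2 a⟩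
      map_add' := fun _ _ => rfl
      map_smul' := fun _ _ => rfl }
  have h := LinearMap.finrank_le_finrank_of_injective (f := f) fun w w' e =>
    Subtype.ext (funext fun v => congrFun (congrArg Subtype.val (congrFun e v.1)) v.2)
  rwa [Module.finrank_pi_fintype, sum_const, card_univ, smul_eq_mul] at h

theorem onep {σ κ ι : Type} [Fintype σ] [Fintype κ] [Nonempty κ] [Fintype ι] (γ : κ → σ → σ)
    (Z : ι → σ → Ob) (Δ : ι → ℤ) {p : ℕ} (hp : p.Prime)
    (h : ∀ x, ¬ (p : ℤ) ∣ Δ x → Fro γ (Z x) p) (N J : ℕ) (e : Fin N → σ →₀ ℕ) (col : Fin N → ι) :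
    (p : Ob) ^ (∑ t ∈ range J, (N - (Fintype.card κ * Hf (fun x v => (Z x v : Fb))
      ((Fintype.card σ + 1) * p + t * p) + (univ.filter fun j => (p : ℤ) ∣ Δ (col j)).card))) ∣
      (Matrix.of fun i j => ∏ v, Z (col j) v ^ e i v).det := by
  classical
  refine dvd_of_val (pow_ne_zero _ (Nat.cast_ne_zero.2 hp.ne_zero)) fun W hW => ?_
  rw [map_pow, map_natCast, RingHom.map_det]
  by_cases hu : IsUnit (p : W)
  · exact (hu.pow _).dvd
  choose! cls hcls using fun x hx => h x hx W hW hu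
  obtain ⟨B, hB⟩ : ∃ B : Finset (Fin N), B = univ.filter fun j => (p : ℤ) ∣ Δ (col j) := ⟨_, rfl⟩
  rw [← hB]
  refine blk_DETP W Fb Subtype.val_injective N J (p : W)
    (fun t => ONEP.UU (WW κ (Vs (fun x v => (Z x v : Fb)) ((Fintype.card σ + 1) * p + t * p)))
      (fun j => (cls (col j), col j)) B) _ _ (Nat.cast_ne_zero.2 hp.ne_zero) ?_ ?_ ?_
  · intro t t' htt
    refine ONEP.mono (fun w hw => mem_WW.2 fun a => ?_) _ B
    exact HILB.mono _ (Nat.add_le_add_left (Nat.mul_le_mul_right _ htt) _) (mem_WW.1 hw a)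
  · intro t
    exact (ONEP.rank_le _ _ B).trans (Nat.add_le_add_right (rank_WW _) _)
  · intro i t _
    have h1 := fun a : κ => red hp.two_le (γ a)
      (fun (x : {x : ι // ¬ (p : ℤ) ∣ Δ x ∧ cls x = a}) v => toV hW (Z x v))
      (fun x v => by
        have := hcls x x.2.1 v
        rwa [x.2.2] at this) t (monomial (e i) 1)
    choose u hu hd using h1
    refine ⟨fun j => if j ∈ B then toV hW (∏ v, Z (col j) v ^ e i v)
      else aeval (fun v => toV hW (Z (col j) v)) (u (cls (col j))), ?_, ?_⟩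
    · have h2 : (fun y : κ × ι => aeval (fun v => (Z y.2 v : Fb)) (u y.1)) ∈
          WW κ (Vs (fun x v => (Z x v : Fb)) ((Fintype.card σ + 1) * p + t * p)) :=
        mem_WW.2 fun a => HILB.mem (fun x v => (Z x v : Fb)) _ (u a) (hu a)
      refine ONEP.mem h2 _ B _ fun j hj => ?_
      simp only [if_neg hj]
      exact (aeval_algebraMap_apply Fb (fun v => toV hW (Z (col j) v)) (u (cls (col j)))).symm
    · intro j
      simp only [RingHom.mapMatrix_apply, Matrix.map_apply, Matrix.of_apply]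
      split_ifs with hj
      · rw [sub_self]
        exact dvd_zero _
      · have := hd (cls (col j)) ⟨col j, fun hh => hj (hB ▸ mem_filter.2 ⟨mem_univ _, hh⟩), rfl⟩
        rw [aeval_monomial, map_one, one_mul, Finsupp.prod_fintype _ _ (fun _ => pow_zero _)]
          at this
        simpa only [map_prod, map_pow] using this

end Pool.Agent.DC83
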