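import Pool.Agent.Lib.DC83.Count
import Pool.Agent.Lib.NF98.MINKA
import Pool.Agent.Lib.NF98.SUCC
import Pool.Agent.Lib.NF98.PROD
import Pool.Agent.Lib.NF98.TOP
import Pool.Agent.Lib.NF98.BOX
import Pool.Agent.Lib.NF98.EMB
import Pool.Agent.Lib.NF98.LIN
import Pool.Agent.Lib.NF98.FIELD
import Pool.Agent.Lib.NF98.MAIN

/-! From the count of points to the count of fields with a distinguishing colouring. -/

namespace Pool.Agent.DC83

open MvPolynomial Finset Module NumberField Pool.Agent.NF98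
open scoped IntermediateField

open FIELD in
theorem field (n r : ℕ) (i0 : Fin n) (c0 : Fin r) (δ : R n r) (hδ : δ ≠ 0) (hd : Dif δ c0) :
    ∃ C : ℝ, 1 ≤ C ∧ ∀ (K : Type) [Field K] [NumberField K] (σ : Fin n ≃ (K →ₐ[ℚ] Fb))
      (ω : Fin n → 𝓞 K) (T : ℝ),
      LinearIndependent ℚ (fun i => (ω i : K)) → (∀ i, house (ω i : K) ≤ T) →
      ∃ S : Finset (V n r → Ob), (T ^ n / ∏ i, house (ω i : K)) ^ r ≤ S.card ∧
        ∀ Z ∈ S, (∃ y, Z = pt σ y) ∧ Bdd (C * T) Z ∧ aeval Z δ ≠ 0 ∧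
          Nonempty (K ≃+* ℚ⟮(Z (i0, c0) : Fb)⟯) := by
  classical
  refine ⟨2 * n * (δ.totalDegree + 1) + 1, le_add_of_nonneg_left (by positivity), ?_⟩
  intro K _ _ σ ω T hli hT
  have hpos : ∀ i, 0 < house (ω i : K) := fun i =>
    zero_lt_one.trans_le (one_le_house_of_isIntegral (RingOfIntegers.isIntegral_coe _)
      (hli.ne_zero i))
  have hT0 : 0 < T := (hpos i0).trans_le (hT i0)
  obtain ⟨Ψ, p1, p2, p3⟩ := blk_LIN n r K σ ω δ hli hδ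
  obtain ⟨S, s1, s2⟩ := blk_BOX (Fin r × Fin n) Fb Ψ (fun v => ⌈T / house (ω v.2 : K)⌉₊) _ p1 p2
  obtain ⟨-, e2, e3, e4⟩ := blk_EMB n r K σ
  refine ⟨S.image fun t => pt σ (comb ω t), ?_, ?_⟩
  · have hi : Function.Injective fun t : Fin r × Fin n → ℕ => pt σ (comb ω t) :=
      e3.comp (comb_inj hli)
    rw [card_image_of_injective _ hi]
    refine le_trans ?_ (Nat.cast_le.2 s1)
    rw [Nat.cast_prod, Fintype.prod_prod_type]
    simp only [prod_const, card_univ, Fintype.card_fin]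
    have a1 : T ^ n / ∏ i, house (ω i : K) = ∏ i, T / house (ω i : K) := by
      rw [prod_div_distrib, prod_const, card_univ, Fintype.card_fin]
    rw [a1]
    refine pow_le_pow_left₀ (prod_nonneg fun i _ => (div_pos hT0 (hpos i)).le) ?_ _
    exact prod_le_prod (fun i _ => (div_pos hT0 (hpos i)).le) fun i _ => Nat.le_ceil _
  · intro Z hZ
    obtain ⟨t, ht, rfl⟩ := mem_image.1 hZ
    obtain ⟨t1, t2⟩ := s2 t ht
    have hne : aeval (pt σ (comb ω t)) δ ≠ 0 := by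
      intro h0
      apply t2
      rw [p3]
      exact congrArg (fun x : Ob => (x : Fb)) h0
    refine ⟨⟨_, rfl⟩, e2 _ _ fun c => (house_comb hpos hT t1 c).trans (by nlinarith), hne,
      e4 _ i0 c0 fun i j hij he => hne ?_⟩
    obtain ⟨q, hq⟩ := hd i j hij
    rw [hq, map_mul, map_sub, aeval_X, aeval_X, he, sub_self, zero_mul]

/-- Fields of one type. -/
theorem one_type (n r b : ℕ) (hn : 2 ≤ n) (hr : 0 < r) (hb1 : 1 ≤ b) (ε : ℝ) (hε : 0 < ε)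
    (G : Subgroup (Equiv.Perm (Fin n))) (P : Fin n → Fin r → Fin b)
    (hP : ∀ g ∈ G, (∀ i, P (g i) = P i) → g = 1) :
    ∃ C : ℝ, ∀ D : ℕ, 1 ≤ D → ∀ (ι : Type) [Fintype ι] (K : ι → Type) [∀ i, Field (K i)]
      [∀ i, NumberField (K i)] (σ : ∀ i, Fin n ≃ (K i →ₐ[ℚ] Fb)),
      (∀ i (y : Fin r → 𝓞 (K i)), StabG G (pt (σ i) y)) →
      (∀ i, Module.finrank ℚ (K i) = n) →
      (∀ i, (NumberField.discr (K i)).natAbs ≤ D) →
      (∀ i j, i ≠ j → IsEmpty (K i ≃+* K j)) →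
      (Fintype.card ι : ℝ) ≤ C * (D : ℝ) ^ ((r : ℝ) * (b - 1 / 2) + ε) := by
  classical
  obtain ⟨δ, hδ, hdif, C, hC1, hc⟩ := count n r b ⟨0, hr⟩ ε hb1 hε G P hP
  obtain ⟨C', hC', hf⟩ := field n r ⟨0, by omega⟩ ⟨0, hr⟩ δ hδ hdif
  set y : ℝ := (b * r * n : ℕ) + ε with hy
  refine ⟨C * (C' * (n : ℝ) ^ 2) ^ y, ?_⟩
  intro D hD ι _ K _ _ σ hσ hK hdisc hiso
  have hD1 : (1 : ℝ) ≤ D := by exact_mod_cast hD
  have hD0 : (0 : ℝ) < D := by linarith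
  have hn2 : (2 : ℝ) ≤ n := by exact_mod_cast hn
  have hn0 : n ≠ 0 := by omega
  set T : ℝ := (n : ℝ) ^ 2 * (D : ℝ) ^ ((n : ℝ)⁻¹) with hT0
  have hDn : (1 : ℝ) ≤ (D : ℝ) ^ ((n : ℝ)⁻¹) := Real.one_le_rpow hD1 (by positivity)
  have hT2 : 2 ≤ T := by nlinarith
  have hex : ∀ i, ∃ S : Finset (V n r → Ob), (√(D : ℝ)) ^ r ≤ S.card ∧
      ∀ Z ∈ S, StabG G Z ∧ Bdd (C' * T) Z ∧ aeval Z δ ≠ 0 ∧
        Nonempty (K i ≃+* ℚ⟮(Z (⟨0, by omega⟩, ⟨0, hr⟩) : Fb)⟯) := by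
    intro i
    obtain ⟨ω, h1, h2, h3, h4⟩ := MAIN.field_data blk_SUCC (blk_PROD blk_MINKA) blk_TOP n hn D
      (K i) (hK i) (hdisc i)
    obtain ⟨S, h5, h6⟩ := hf (K i) (σ i) ω T h1 h2
    refine ⟨S, le_trans (pow_le_pow_left₀ (Real.sqrt_nonneg _) ?_ r) h5, fun Z hZ => ?_⟩
    swap
    · obtain ⟨⟨y, rfl⟩, h7⟩ := h6 Z hZ
      exact ⟨hσ i y, h7⟩
    rw [le_div_iff₀ h3]
    have hnn : (1 : ℝ) ≤ (n : ℝ) ^ n := one_le_pow₀ (by linarith)
    calc √(D : ℝ) * ∏ j, house (ω j : K i) ≤ √(D : ℝ) * ((n : ℝ) ^ n * √(D : ℝ)) :=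
          mul_le_mul_of_nonneg_left h4 (Real.sqrt_nonneg _)
      _ = (n : ℝ) ^ n * D := by
          rw [mul_left_comm, Real.mul_self_sqrt hD0.le]
      _ ≤ (n : ℝ) ^ n * (n : ℝ) ^ n * D := by
          refine mul_le_mul_of_nonneg_right ?_ hD0.le
          nlinarith
      _ = T ^ n := by
          rw [hT0, mul_pow, Real.rpow_inv_natCast_pow hD0.le hn0, ← pow_mul, two_mul, pow_add]
  choose S hS1 hS2 using hex
  have hdisj : ((univ : Finset ι) : Set ι).PairwiseDisjoint S := by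
    intro i _ j _ hij
    rw [Function.onFun, Finset.disjoint_left]
    intro Z hi hj
    obtain ⟨e1⟩ := (hS2 i Z hi).2.2.2
    obtain ⟨e2⟩ := (hS2 j Z hj).2.2.2
    exact (hiso i j hij).false (e1.trans e2.symm)
  have hcount := hc (C' * T) (univ.biUnion S) (by nlinarith) (fun Z hZ => by
    obtain ⟨i, -, hi⟩ := mem_biUnion.1 hZ
    exact ⟨(hS2 i Z hi).1, (hS2 i Z hi).2.1, (hS2 i Z hi).2.2.1⟩)
  rw [card_biUnion hdisj] at hcount
  have hlow : (Fintype.card ι : ℝ) * (√(D : ℝ)) ^ r ≤ ((∑ i, (S i).card : ℕ) : ℝ) := by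
    push_cast
    calc (Fintype.card ι : ℝ) * (√(D : ℝ)) ^ r = ∑ _i : ι, (√(D : ℝ)) ^ r := by simp
      _ ≤ _ := sum_le_sum fun i _ => hS1 i
  have hsq : (√(D : ℝ)) ^ r = (D : ℝ) ^ ((r : ℝ) / 2) := by
    rw [Real.sqrt_eq_rpow, ← Real.rpow_natCast, ← Real.rpow_mul hD0.le]
    congr 1
    ring
  have hup : (C' * T) ^ y ≤ (C' * (n : ℝ) ^ 2) ^ y * (D : ℝ) ^ ((r : ℝ) * b + ε) := by
    rw [hT0, ← mul_assoc, Real.mul_rpow (by positivity) (by positivity),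
      ← Real.rpow_mul hD0.le]
    refine mul_le_mul_of_nonneg_left (Real.rpow_le_rpow_of_exponent_le hD1 ?_) (by positivity)
    have hn0' : (0 : ℝ) < n := by linarith
    rw [hy, inv_mul_le_iff₀ hn0']
    push_cast
    nlinarith
  have hfin : (Fintype.card ι : ℝ) * (D : ℝ) ^ ((r : ℝ) / 2) ≤
      C * ((C' * (n : ℝ) ^ 2) ^ y * (D : ℝ) ^ ((r : ℝ) * b + ε)) := by
    rw [← hsq]
    exact hlow.trans (hcount.trans (mul_le_mul_of_nonneg_left hup (by linarith)))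
  have hsplit : (D : ℝ) ^ ((r : ℝ) * b + ε) =
      (D : ℝ) ^ ((r : ℝ) * (b - 1 / 2) + ε) * (D : ℝ) ^ ((r : ℝ) / 2) := by
    rw [← Real.rpow_add hD0]
    congr 1
    ring
  rw [hsplit] at hfin
  have hpos : 0 < (D : ℝ) ^ ((r : ℝ) / 2) := by positivity
  refine le_of_mul_le_mul_right (hfin.trans (le_of_eq ?_)) hpos
  ring

/-- The action of the absolute Galois group on the numbered embeddings. -/
noncomputable def act {n : ℕ} {K : Type} [Field K] [NumberField K]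
    (σ : Fin n ≃ (K →ₐ[ℚ] Fb)) : (Fb ≃ₐ[ℚ] Fb) →* Equiv.Perm (Fin n) where
  toFun τ := σ.trans ((EMB.post τ).trans σ.symm)
  map_one' := by
    ext i
    have : EMB.post (1 : Fb ≃ₐ[ℚ] Fb) (σ i) = σ i := rfl
    simp [this]
  map_mul' τ τ' := by
    ext i
    have : EMB.post (τ * τ') (σ i) = EMB.post τ (EMB.post τ' (σ i)) := rfl
    simp [this]

lemma act_spec {n : ℕ} {K : Type} [Field K] [NumberField K] (σ : Fin n ≃ (K →ₐ[ℚ] Fb))
    (τ : Fb ≃ₐ[ℚ] Fb) (i : Fin n) : σ (act σ τ i) = (τ : Fb →ₐ[ℚ] Fb).comp (σ i) :=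
  σ.apply_symm_apply _

theorem main (n r b : ℕ) (hn : 2 ≤ n) (hr : 1 ≤ r) (ε : ℝ) (hε : 0 < ε) :
    ∃ C : ℝ, ∀ D : ℕ, 1 ≤ D →
      ∀ m : ℕ, ∀ (K : Fin m → Type) [∀ i, Field (K i)] [∀ i, NumberField (K i)],
        (∀ i, Module.finrank ℚ (K i) = n) →
        (∀ i, (NumberField.discr (K i)).natAbs ≤ D) →
        (∀ i j, i ≠ j → IsEmpty (K i ≃+* K j)) →
        (∀ i, ∃ c : (K i →ₐ[ℚ] Fb) → Fin (b ^ r), ∀ τ : Fb ≃ₐ[ℚ] Fb,
          (∀ φ, c ((τ : Fb →ₐ[ℚ] Fb).comp φ) = c φ) → ∀ φ : K i →ₐ[ℚ] Fb,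
            (τ : Fb →ₐ[ℚ] Fb).comp φ = φ) →
        (m : ℝ) ≤ C * (D : ℝ) ^ ((r : ℝ) * (b - 1 / 2) + ε) := by
  classical
  rcases Nat.eq_zero_or_pos b with rfl | hb
  · refine ⟨0, fun D _ m K _ _ _ _ _ hc => ?_⟩
    rcases m with _ | m
    · simp
    · obtain ⟨c, -⟩ := hc 0
      exact absurd ((c IsAlgClosed.lift).2.trans_eq (zero_pow (by omega))) (Nat.not_lt_zero _)
  haveI : Fintype (Subgroup (Equiv.Perm (Fin n))) := Fintype.ofFinite _
  have h1 := fun t : Subgroup (Equiv.Perm (Fin n)) × (Fin n → Fin r → Fin b) =>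
    one_type n r b hn hr hb ε hε t.1 t.2
  choose! C hC using h1
  refine ⟨∑ t, max (C t) 0, fun D hD m K _ _ hK hdisc hiso hc => ?_⟩
  choose c hc using hc
  have σ : ∀ i, Fin n ≃ (K i →ₐ[ℚ] Fb) := fun i =>
    (Fintype.equivFinOfCardEq ((AlgHom.card ℚ (K i) Fb).trans (hK i))).symm
  let ty : Fin m → Subgroup (Equiv.Perm (Fin n)) × (Fin n → Fin r → Fin b) := fun i =>
    ((act (σ i)).range, fun j => finFunctionFinEquiv.symm (c i (σ i j)))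
  have hm : m = ∑ t, Fintype.card {i // ty i = t} := by
    rw [← Fintype.card_sigma, Fintype.card_congr (Equiv.sigmaFiberEquiv ty), Fintype.card_fin]
  rw [hm, Nat.cast_sum, sum_mul]
  refine sum_le_sum fun t _ => ?_
  rcases isEmpty_or_nonempty {i // ty i = t} with h0 | ⟨⟨i0, h0⟩⟩
  · rw [Fintype.card_eq_zero, Nat.cast_zero]
    positivity
  refine le_trans (hC t ?_ D hD _ (fun i => K i.1) (fun i => σ i.1) ?_ (fun i => hK i.1)
    (fun i => hdisc i.1) fun i j hij => hiso _ _ fun h => hij (Subtype.ext h))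
    (mul_le_mul_of_nonneg_right (le_max_left _ _) (by positivity))
  · subst h0
    rintro g ⟨τ, rfl⟩ hg
    ext j
    have h2 := hc i0 τ (fun φ => by
      have h3 := finFunctionFinEquiv.symm.injective (hg ((σ i0).symm φ))
      rwa [act_spec, Equiv.apply_symm_apply] at h3) (σ i0 j)
    rw [← act_spec] at h2
    exact congrArg Fin.val ((σ i0).injective h2)
  · rintro ⟨i, rfl⟩ y τ
    refine ⟨act (σ i) τ, ⟨τ, rfl⟩, fun j c => ?_⟩
    rw [EMB.pt_coe, EMB.pt_coe, act_spec]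
    rfl

end Pool.Agent.DC83
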