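import Pool.Agent.Lib.DC83.Count2
import Pool.Agent.Lib.DC83.Main

/-! Fields with a distinguishing colouring and a small Galois group. -/

namespace Pool.Agent.DC83

open MvPolynomial Finset Module NumberField Pool.Agent.NF98
open scoped IntermediateField

/-- Fields of one type. -/
theorem one_type2 (n r b A : ℕ) (hn : 2 ≤ n) (hr : 0 < r) (hA : 2 ≤ A) (β ε : ℝ) (hβ : 1 < β)
    (hβb : β ≤ b) (hε : 0 < ε) (G : Subgroup (Equiv.Perm (Fin n))) (hG : Nat.card G ≤ A)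
    (P : Fin n → Fin r → Fin b)
    (hP : ∀ g ∈ G, (∀ i, P (g i) = P i) → g = 1) :
    ∃ C : ℝ, ∀ D : ℕ, 1 ≤ D → ∀ (ι : Type) [Fintype ι] (K : ι → Type) [∀ i, Field (K i)]
      [∀ i, NumberField (K i)] (σ : ∀ i, Fin n ≃ (K i →ₐ[ℚ] Fb)),
      (∀ i (y : Fin r → 𝓞 (K i)), StabG G (pt (σ i) y)) →
      (∀ i, Module.finrank ℚ (K i) = n) →
      (∀ i, (NumberField.discr (K i)).natAbs ≤ D) →
      (∀ i j, i ≠ j → IsEmpty (K i ≃+* K j)) →
      (Fintype.card ι : ℝ) ≤ C * (D : ℝ) ^ ((r : ℝ) * (β - 1 / 2) +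
        Real.log A / n * (∫ x in β..b, 1 / Real.log x) + ε) := by
  classical
  obtain ⟨δ, hδ, hdif, C, hC1, hc⟩ := count2 n r b A ⟨0, hr⟩ β ε hA hβ hβb hε G hG P hP
  obtain ⟨C', hC', hf⟩ := field n r ⟨0, by omega⟩ ⟨0, hr⟩ δ hδ hdif
  set F := ∫ x in β..b, 1 / Real.log x with hF
  set y : ℝ := β * (n * r : ℕ) + Real.log A * F + ε with hy
  refine ⟨C * (C' * (n : ℝ) ^ 2) ^ y, ?_⟩
  intro D hD ι _ K _ _ σ hσ hK hdisc hiso
  have hD1 : (1 : ℝ) ≤ D := by exact_mod_cast hD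
  have hD0 : (0 : ℝ) < D := by linarith
  have hn2 : (2 : ℝ) ≤ n := by exact_mod_cast hn
  have hn0 : n ≠ 0 := by omega
  set T : ℝ := (n : ℝ) ^ 2 * (D : ℝ) ^ ((n : ℝ)⁻¹) with hT0
  have hDn : (1 : ℝ) ≤ (D : ℝ) ^ ((n : ℝ)⁻¹) := Real.one_le_rpow hD1 (by positivity)
  have hT2 : 2 ≤ T := by nlinarith
  have hex : ∀ i, ∃ S : Finset (V n r → Ob), (√(D : ℝ)) ^ r ≤ S.card ∧
      ∀ Z ∈ S, StabG G Z ∧ Bdd (C' * T) Z ∧ aeval Z δ ≠ 0 ∧
        Nonempty (K i ≃+* ℚ⟮(Z (⟨0, by omega⟩, ⟨0, hr⟩) : Fb)⟯) := by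
    intro i
    obtain ⟨ω, h1, h2, h3, h4⟩ := MAIN.field_data blk_SUCC (blk_PROD blk_MINKA) blk_TOP n hn D
      (K i) (hK i) (hdisc i)
    obtain ⟨S, h5, h6⟩ := hf (K i) (σ i) ω T h1 h2
    refine ⟨S, le_trans (pow_le_pow_left₀ (Real.sqrt_nonneg _) ?_ r) h5, fun Z hZ => ?_⟩
    swap
    · obtain ⟨⟨y, rfl⟩, h7⟩ := h6 Z hZ
      exact ⟨hσ i y, h7⟩
    rw [le_div_iff₀ h3]
    have hnn : (1 : ℝ) ≤ (n : ℝ) ^ n := one_le_pow₀ (by linarith)
    calc √(D : ℝ) * ∏ j, house (ω j : K i) ≤ √(D : ℝ) * ((n : ℝ) ^ n * √(D : ℝ)) :=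
          mul_le_mul_of_nonneg_left h4 (Real.sqrt_nonneg _)
      _ = (n : ℝ) ^ n * D := by
          rw [mul_left_comm, Real.mul_self_sqrt hD0.le]
      _ ≤ (n : ℝ) ^ n * (n : ℝ) ^ n * D := by
          refine mul_le_mul_of_nonneg_right ?_ hD0.le
          nlinarith
      _ = T ^ n := by
          rw [hT0, mul_pow, Real.rpow_inv_natCast_pow hD0.le hn0, ← pow_mul, two_mul, pow_add]
  choose S hS1 hS2 using hex
  have hdisj : ((univ : Finset ι) : Set ι).PairwiseDisjoint S := by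
    intro i _ j _ hij
    rw [Function.onFun, Finset.disjoint_left]
    intro Z hi hj
    obtain ⟨e1⟩ := (hS2 i Z hi).2.2.2
    obtain ⟨e2⟩ := (hS2 j Z hj).2.2.2
    exact (hiso i j hij).false (e1.trans e2.symm)
  have hcount := hc (C' * T) (univ.biUnion S) (by nlinarith) (fun Z hZ => by
    obtain ⟨i, -, hi⟩ := mem_biUnion.1 hZ
    exact ⟨(hS2 i Z hi).1, (hS2 i Z hi).2.1, (hS2 i Z hi).2.2.1⟩)
  rw [card_biUnion hdisj] at hcount
  have hlow : (Fintype.card ι : ℝ) * (√(D : ℝ)) ^ r ≤ ((∑ i, (S i).card : ℕ) : ℝ) := by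
    push_cast
    calc (Fintype.card ι : ℝ) * (√(D : ℝ)) ^ r = ∑ _i : ι, (√(D : ℝ)) ^ r := by simp
      _ ≤ _ := sum_le_sum fun i _ => hS1 i
  have hsq : (√(D : ℝ)) ^ r = (D : ℝ) ^ ((r : ℝ) / 2) := by
    rw [Real.sqrt_eq_rpow, ← Real.rpow_natCast, ← Real.rpow_mul hD0.le]
    congr 1
    ring
  have hup : (C' * T) ^ y ≤ (C' * (n : ℝ) ^ 2) ^ y * (D : ℝ) ^ ((r : ℝ) * β + Real.log A / n * F + ε) := by
    rw [hT0, ← mul_assoc, Real.mul_rpow (by positivity) (by positivity),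
      ← Real.rpow_mul hD0.le]
    refine mul_le_mul_of_nonneg_left (Real.rpow_le_rpow_of_exponent_le hD1 ?_) (by positivity)
    have hn0' : (0 : ℝ) < n := by linarith
    rw [hy, inv_mul_le_iff₀ hn0']
    have h1 : (n : ℝ) * (Real.log A / n * F) = Real.log A * F := by field_simp
    push_cast
    nlinarith
  have hfin : (Fintype.card ι : ℝ) * (D : ℝ) ^ ((r : ℝ) / 2) ≤
      C * ((C' * (n : ℝ) ^ 2) ^ y * (D : ℝ) ^ ((r : ℝ) * β + Real.log A / n * F + ε)) := by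
    rw [← hsq]
    exact hlow.trans (hcount.trans (mul_le_mul_of_nonneg_left hup (by linarith)))
  have hsplit : (D : ℝ) ^ ((r : ℝ) * β + Real.log A / n * F + ε) =
      (D : ℝ) ^ ((r : ℝ) * (β - 1 / 2) + Real.log A / n * F + ε) * (D : ℝ) ^ ((r : ℝ) / 2) := by
    rw [← Real.rpow_add hD0]
    congr 1
    ring
  rw [hsplit] at hfin
  have hpos : 0 < (D : ℝ) ^ ((r : ℝ) / 2) := by positivity
  refine le_of_mul_le_mul_right (hfin.trans (le_of_eq ?_)) hpos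
  ring

lemma card_range {F E K G : Type} [Field F] [Field E] [Field K] [Algebra F E] [Algebra F K]
    [Normal F E] [FiniteDimensional F K] [Group G] (φ : (E ≃ₐ[F] E) →* G)
    (h : ∀ τ : E ≃ₐ[F] E, (∀ (s : K →ₐ[F] E) (x : K), τ (s x) = s x) → φ τ = 1) :
    Nat.card φ.range ≤ finrank F (IntermediateField.normalClosure F K E) := by
  set L := IntermediateField.normalClosure F K E with hL
  let f : (E ≃ₐ[F] E) →* (L ≃ₐ[F] L) := AlgEquiv.restrictNormalHom L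
  have h1 : f.ker ≤ φ.ker := by
    intro τ hτ
    refine h τ fun s x => ?_
    have hx : s x ∈ L := s.fieldRange_le_normalClosure ⟨x, rfl⟩
    have h2 := AlgEquiv.restrictNormalHom_apply L τ ⟨s x, hx⟩
    rw [show AlgEquiv.restrictNormalHom L τ = 1 from hτ] at h2
    exact h2.symm
  have h2 : f.ker.index ≠ 0 := by
    rw [Subgroup.index_ker]
    exact Nat.card_pos.ne'
  rw [← Subgroup.index_ker]
  refine (Nat.le_of_dvd (Nat.pos_of_ne_zero h2) (Subgroup.index_dvd_of_le h1)).trans ?_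
  rw [Subgroup.index_ker]
  refine (Nat.card_le_card_of_injective _ Subtype.val_injective).trans ?_
  rw [Nat.card_eq_fintype_card]
  exact AlgEquiv.card_le

lemma card_act {n : ℕ} {K : Type} [Field K] [NumberField K] (σ : Fin n ≃ (K →ₐ[ℚ] Fb)) :
    Nat.card (act σ).range ≤ finrank ℚ (IntermediateField.normalClosure ℚ K Fb) := by
  have : IsAlgClosure ℚ Fb := AlgebraicClosure.instIsAlgClosure ℚ
  have : Normal ℚ Fb := IsAlgClosure.normal ℚ Fb
  refine card_range (K := K) (act σ) fun τ h => ?_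
  ext i
  refine congrArg Fin.val (σ.injective ?_)
  rw [act_spec]
  ext x
  exact h (σ i) x

theorem main2 (n r b A : ℕ) (hn : 2 ≤ n) (hr : 1 ≤ r) (hA : 2 ≤ A) (β ε : ℝ) (hβ : 1 < β)
    (hβb : β ≤ b) (hε : 0 < ε) :
    ∃ C : ℝ, ∀ D : ℕ, 1 ≤ D →
      ∀ m : ℕ, ∀ (K : Fin m → Type) [∀ i, Field (K i)] [∀ i, NumberField (K i)],
        (∀ i, Module.finrank ℚ (K i) = n) →
        (∀ i, (NumberField.discr (K i)).natAbs ≤ D) →
        (∀ i j, i ≠ j → IsEmpty (K i ≃+* K j)) →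
        (∀ i, Module.finrank ℚ (IntermediateField.normalClosure ℚ (K i) Fb) ≤ A) →
        (∀ i, ∃ c : (K i →ₐ[ℚ] Fb) → Fin (b ^ r), ∀ τ : Fb ≃ₐ[ℚ] Fb,
          (∀ φ, c ((τ : Fb →ₐ[ℚ] Fb).comp φ) = c φ) → ∀ φ : K i →ₐ[ℚ] Fb,
            (τ : Fb →ₐ[ℚ] Fb).comp φ = φ) →
        (m : ℝ) ≤ C * (D : ℝ) ^ ((r : ℝ) * (β - 1 / 2) +
          Real.log A / n * (∫ x in β..b, 1 / Real.log x) + ε) := by
  classical
  have : Fintype (Subgroup (Equiv.Perm (Fin n))) := Fintype.ofFinite _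
  have h1 := fun t : Subgroup (Equiv.Perm (Fin n)) × (Fin n → Fin r → Fin b) =>
    fun h => one_type2 n r b A hn hr hA β ε hβ hβb hε t.1 h t.2
  choose! C hC using h1
  refine ⟨∑ t, max (C t) 0, fun D hD m K _ _ hK hdisc hiso hN hc => ?_⟩
  choose c hc using hc
  have σ : ∀ i, Fin n ≃ (K i →ₐ[ℚ] Fb) := fun i =>
    (Fintype.equivFinOfCardEq ((AlgHom.card ℚ (K i) Fb).trans (hK i))).symm
  let ty : Fin m → Subgroup (Equiv.Perm (Fin n)) × (Fin n → Fin r → Fin b) := fun i =>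
    ((act (σ i)).range, fun j => finFunctionFinEquiv.symm (c i (σ i j)))
  have hm : m = ∑ t, Fintype.card {i // ty i = t} := by
    rw [← Fintype.card_sigma, Fintype.card_congr (Equiv.sigmaFiberEquiv ty), Fintype.card_fin]
  rw [hm, Nat.cast_sum, sum_mul]
  refine sum_le_sum fun t _ => ?_
  rcases isEmpty_or_nonempty {i // ty i = t} with h0 | ⟨⟨i0, h0⟩⟩
  · rw [Fintype.card_eq_zero, Nat.cast_zero]
    positivity
  refine le_trans (hC t ?_ ?_ D hD _ (fun i => K i.1) (fun i => σ i.1) ?_ (fun i => hK i.1)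
    (fun i => hdisc i.1) fun i j hij => hiso _ _ fun h => hij (Subtype.ext h))
    (mul_le_mul_of_nonneg_right (le_max_left _ _) (by positivity))
  · subst h0
    exact (card_act (σ i0)).trans (hN i0)
  · subst h0
    rintro g ⟨τ, rfl⟩ hg
    ext j
    have h2 := hc i0 τ (fun φ => by
      have h3 := finFunctionFinEquiv.symm.injective (hg ((σ i0).symm φ))
      rwa [act_spec, Equiv.apply_symm_apply] at h3) (σ i0 j)
    rw [← act_spec] at h2
    exact congrArg Fin.val ((σ i0).injective h2)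
  · rintro ⟨i, rfl⟩ y τ
    refine ⟨act (σ i) τ, ⟨τ, rfl⟩, fun j c => ?_⟩
    rw [EMB.pt_coe, EMB.pt_coe, act_spec]
    rfl

end Pool.Agent.DC83
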