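import Pool.Agent.Lib.DC83.Grid
import Pool.Agent.Lib.NF98.SYM
import Pool.Agent.Lib.NF98.GOOD
import Pool.Agent.Lib.NF98.HILB

/-! The orbit of a point of affine `n r`-space under a permutation group, as a configuration of
points of affine `(n r + 1)`-space. -/

namespace Pool.Agent.DC83

open MvPolynomial Finset Module Pool.Agent.NF98

variable {n r N : ℕ} {G : Subgroup (Equiv.Perm (Fin n))}

/-- The Galois group permutes the `n` points through `G`. -/
def StabG (G : Subgroup (Equiv.Perm (Fin n))) (Z : V n r → Ob) : Prop :=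
  ∀ τ : Fb ≃ₐ[ℚ] Fb, ∃ π ∈ G, ∀ i c, τ (Z (i, c) : Fb) = (Z (π i, c) : Fb)

/-- The orbit of `Z`, with one more coordinate separating the points. -/
def orb (e : Fin N ≃ G) (l : ℕ) (c0 : Fin r) {A : Type} [CommRing A] (Z : V n r → A) :
    V N (n * r + 1) → A := fun v =>
  Fin.cases (∑ i : Fin n, ((l * i : ℕ) : A) * Z ((e v.1 : Equiv.Perm (Fin n)) i, c0))
    (fun w => Z ((e v.1 : Equiv.Perm (Fin n)) (finProdFinEquiv.symm w).1,
      (finProdFinEquiv.symm w).2)) v.2

/-- left translation -/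
def lt (e : Fin N ≃ G) (π : G) : Equiv.Perm (Fin N) := e.trans ((Equiv.mulLeft π).trans e.symm)

variable (e : Fin N ≃ G) (l : ℕ) (c0 : Fin r)

lemma e_lt (π : G) (a : Fin N) : e (lt e π a) = π * e a := by simp [lt]

lemma lt_mul (π ρ : G) (a : Fin N) : lt e π (lt e ρ a) = lt e (π * ρ) a :=
  e.injective (by simp [e_lt, mul_assoc])

lemma lt_one (a : Fin N) : lt e 1 a = a := e.injective (by simp [e_lt])

lemma orb_zero {A : Type} [CommRing A] (Z : V n r → A) (a : Fin N) :
    orb e l c0 Z (a, 0) = ∑ i : Fin n, ((l * i : ℕ) : A) * Z ((e a : Equiv.Perm (Fin n)) i, c0) :=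
  rfl

lemma orb_succ {A : Type} [CommRing A] (Z : V n r → A) (a : Fin N) (w : Fin (n * r)) :
    orb e l c0 Z (a, w.succ) = Z ((e a : Equiv.Perm (Fin n)) (finProdFinEquiv.symm w).1,
      (finProdFinEquiv.symm w).2) := rfl

lemma orb_map {A B F : Type} [CommRing A] [CommRing B] [FunLike F A B] [RingHomClass F A B]
    (f : F) (Z : V n r → A) (v : V N (n * r + 1)) :
    f (orb e l c0 Z v) = orb e l c0 (fun w => f (Z w)) v := by
  obtain ⟨a, c⟩ := v
  refine Fin.cases ?_ (fun w => rfl) c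
  simp only [orb_zero, map_sum, map_mul, map_natCast]

lemma orb_perm {A : Type} [CommRing A] (Z : V n r → A) (π : G) (a : Fin N) (c : Fin (n * r + 1)) :
    orb e l c0 (fun w => Z ((π : Equiv.Perm (Fin n)) w.1, w.2)) (a, c) =
      orb e l c0 Z (lt e π a, c) := by
  refine Fin.cases ?_ (fun w => ?_) c
  · simp only [orb_zero, e_lt, Subgroup.coe_mul, Equiv.Perm.mul_apply]
  · simp only [orb_succ, e_lt, Subgroup.coe_mul, Equiv.Perm.mul_apply]

lemma orb_inj {A : Type} [CommRing A] : Function.Injective (orb e l c0 (A := A)) := by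
  intro Z W h
  funext v
  have := congrFun h (e.symm 1, (finProdFinEquiv v).succ)
  simpa [orb_succ] using this

lemma aeval_orb {A : Type} [CommRing A] (Z : V n r → A) (δ : R N (n * r + 1)) :
    aeval Z (aeval (orb e l c0 (X : V n r → R n r)) δ) = aeval (orb e l c0 Z) δ := by
  have h := MvPolynomial.comp_aeval_apply (R := ℤ) (orb e l c0 (X : V n r → R n r)) (aeval Z) δ
  rw [h]
  congr 2
  funext v
  rw [orb_map]
  simp

lemma orb_deg (v : V N (n * r + 1)) : (orb e l c0 (X : V n r → R n r) v).totalDegree ≤ 1 := by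
  obtain ⟨a, c⟩ := v
  refine Fin.cases ?_ (fun w => ?_) c
  · rw [orb_zero]
    refine totalDegree_finsetSum_le fun i _ => (totalDegree_mul _ _).trans ?_
    rw [← map_natCast (C : ℤ →+* R n r), totalDegree_C, totalDegree_X, zero_add]
  · rw [orb_succ, totalDegree_X]

lemma orb_sep (hl : l ≠ 0) {a a' : Fin N} (h : a ≠ a') :
    orb e l c0 (X : V n r → R n r) (a, 0) - orb e l c0 X (a', 0) ≠ 0 := by
  classical
  intro h0
  apply h
  apply e.injective
  apply Subtype.ext
  apply inv_injective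
  ext j
  have key : ∀ g : Equiv.Perm (Fin n), ∑ i : Fin n, ((l * i : ℕ) : ℤ) *
      (if g i = j then 1 else 0) = ((l * (g⁻¹ j : Fin n) : ℕ) : ℤ) := by
    intro g
    rw [sum_eq_single (g⁻¹ j)]
    · simp
    · intro i _ hi
      rw [if_neg, mul_zero]
      intro h1
      exact hi (by rw [← h1]; simp)
    · simp
  have h1 := congrArg (aeval (fun w : V n r => if w.1 = j then (1 : ℤ) else 0) : R n r →ₐ[ℤ] ℤ) h0
  rw [map_sub, map_zero, orb_map, orb_map, orb_zero, orb_zero, sub_eq_zero] at h1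
  simp only [aeval_X, key] at h1
  have h2 : l * ((e a : Equiv.Perm (Fin n))⁻¹ j : Fin n) =
      l * ((e a' : Equiv.Perm (Fin n))⁻¹ j : Fin n) := by exact_mod_cast h1
  exact Nat.eq_of_mul_eq_mul_left (Nat.pos_of_ne_zero hl) h2

lemma hf_orb {ι F : Type} [Fintype ι] [Field F] (Z : ι → V n r → F) (j : ℕ) :
    Hf (fun x => orb e l c0 (Z x)) j ≤ (j + 1) ^ (n * r) := by
  have h1 : Vs (fun x => orb e l c0 (Z x)) j ≤ Vs Z j := by
    refine Submodule.span_le.2 ?_
    rintro w ⟨q, hq, rfl⟩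
    have h2 := HILB.mem Z j (∏ v, orb e l c0 (X : V n r → R n r) v ^ q v) (by
      refine (totalDegree_finsetProd _ _).trans (le_trans ?_ hq)
      rw [Finsupp.degree_eq_sum]
      exact sum_le_sum fun v _ => (totalDegree_pow _ _).trans
        ((Nat.mul_le_mul_left _ (orb_deg e l c0 v)).trans_eq (mul_one _)))
    have h3 : evs (fun x => orb e l c0 (Z x)) q =
        fun x => aeval (Z x) (∏ v, orb e l c0 (X : V n r → R n r) v ^ q v) := by
      funext x
      simp only [evs, map_prod, map_pow, orb_map, aeval_X]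
    rw [h3]
    exact h2
  refine (Submodule.finrank_mono h1).trans ((HILB.bound Z j).trans_eq ?_)
  simp [V]

lemma bdd_orb {T : ℝ} (hT : 0 ≤ T) {Z : V n r → Ob} (h : Bdd T Z) :
    Bdd ((l * n * n + 1) * T) (orb e l c0 Z) := by
  rintro φ ⟨a, c⟩
  have h0 : (0 : ℝ) ≤ l * n * n * T := by positivity
  refine Fin.cases ?_ (fun w => ?_) c
  · have h1 := orb_map e l c0 (φ.comp (integralClosure ℤ Fb).val.toRingHom) Z (a, 0)
    refine (congrArg norm h1).trans_le ?_
    rw [orb_zero]
    refine (norm_sum_le _ _).trans ((sum_le_card_nsmul _ _ (l * n * T) fun i _ => ?_).trans ?_)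
    · rw [norm_mul, Complex.norm_natCast]
      refine mul_le_mul ?_ (h φ _) (norm_nonneg _) (by positivity)
      exact_mod_cast Nat.mul_le_mul_left l i.2.le
    · simp only [card_univ, Fintype.card_fin, nsmul_eq_mul]
      nlinarith
  · rw [orb_succ]
    exact (h φ _).trans (by nlinarith)

lemma tau_orb {Z : V n r → Ob} (h : StabG G Z) (τ : Fb ≃ₐ[ℚ] Fb) :
    ∃ π : G, ∀ a c, τ ((orb e l c0 Z (a, c) : Ob) : Fb) =
      ((orb e l c0 Z (lt e π a, c) : Ob) : Fb) := by
  obtain ⟨π, hπ, h1⟩ := h τ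
  refine ⟨⟨π, hπ⟩, fun a c => ?_⟩
  have h2 : ∀ v, ((orb e l c0 Z v : Ob) : Fb) = orb e l c0 (fun w => (Z w : Fb)) v := fun v =>
    orb_map e l c0 (integralClosure ℤ Fb).val Z v
  rw [h2, h2, orb_map, ← orb_perm]
  congr 1
  funext w
  exact h1 w.1 w.2

/-- the product of the differences of the separating coordinate -/
noncomputable def dsc (N m : ℕ) : R N (m + 1) :=
  ∏ p ∈ (univ : Finset (Fin N)).offDiag, (X (p.1, 0) - X (p.2, 0))

lemma dsc_sym (m : ℕ) : Sym (dsc N m) := fun π => by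
  rw [dsc, map_prod]
  exact prod_equiv (π.prodCongr π) (fun p => by simp) fun p _ => by simp

lemma dsc_dif (m : ℕ) : Dif (dsc N m) 0 := fun i j hij =>
  dvd_prod_of_mem (fun p : Fin N × Fin N => (X (p.1, 0) - X (p.2, 0) : R N (m + 1)))
    (a := (i, j)) (by simp [hij])

theorem exists_delta {b k : ℕ} [Fact l.Prime] (hbl : b ≤ l) (hb : 1 ≤ b) (hk : 1 ≤ k)
    (P : Fin n → Fin r → Fin b) (hP : ∀ g ∈ G, (∀ i, P (g i) = P i) → g = 1) :
    ∃ δ : R N (n * r + 1), Rel δ (b * k + (n * r + 1) * b + 1) k ∧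
      aeval (orb e l c0 (X : V n r → R n r)) δ ≠ 0 ∧
      ∀ Z : V n r → Ob, StabG G Z → aeval (orb e l c0 Z) δ ≠ 0 →
        ∃ Δ : ℤ, Good δ 0 (orb e l c0 Z) Δ := by
  classical
  have hl : l ≠ 0 := (Fact.out : l.Prime).ne_zero
  haveI : Fintype G := Fintype.ofFinite G
  let Q : Fin N → Fin (n * r + 1) → Fin b := fun a c => Fin.cases ⟨0, hb⟩
    (fun w => P ((e a : Equiv.Perm (Fin n)) (finProdFinEquiv.symm w).1)
      (finProdFinEquiv.symm w).2) c
  have hQ : Function.Injective Q := by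
    intro a a' h
    apply e.injective
    have h1 : ∀ i, P ((e a : Equiv.Perm (Fin n)) i) = P ((e a' : Equiv.Perm (Fin n)) i) := by
      intro i
      funext c
      have h3 := congrFun h (finProdFinEquiv (i, c)).succ
      simp only [Q, Fin.cases_succ, Equiv.symm_apply_apply] at h3
      exact h3
    have h2 := hP ((e a * (e a')⁻¹ : G) : Equiv.Perm (Fin n)) (e a * (e a')⁻¹).2 fun i => by
      simpa using h1 ((e a' : Equiv.Perm (Fin n))⁻¹ i)
    exact mul_inv_eq_one.1 (Subtype.ext h2)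
  obtain ⟨δ, h1, h2⟩ := grid N (n * r + 1) b k l hbl hb hk Q hQ
  have h3 : aeval (orb e l c0 (X : V n r → R n r)) δ ≠ 0 := by
    intro h0
    have h4 := aeval_orb e l c0 (fun v : V n r => ((P v.1 v.2 : ℕ) : ZMod l)) δ
    have h5 : orb e l c0 (fun v : V n r => ((P v.1 v.2 : ℕ) : ZMod l)) =
        fun v : V N (n * r + 1) => ((Q v.1 v.2 : ℕ) : ZMod l) := by
      funext ⟨a, c⟩
      refine Fin.cases ?_ (fun w => rfl) c
      simp [orb_zero, Q]
    rw [h0, h5, h1, map_zero] at h4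
    exact zero_ne_one h4
  have hinv : ∀ π : G, rename (Prod.map (lt e π) id)
      ((∏ ρ : G, rename (Prod.map (lt e ρ) id) δ) * dsc N (n * r)) =
      (∏ ρ : G, rename (Prod.map (lt e ρ) id) δ) * dsc N (n * r) := by
    intro π
    rw [map_mul, dsc_sym _ (lt e π), map_prod]
    congr 1
    refine Fintype.prod_equiv (Equiv.mulLeft π) _ _ fun ρ => ?_
    rw [rename_rename]
    congr 2
    funext v
    exact Prod.ext (lt_mul e π ρ v.1) rfl
  refine ⟨(∏ ρ : G, rename (Prod.map (lt e ρ) id) δ) * dsc N (n * r),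
    SYM.rel_mul h2 (Dvd.dvd.mul_right ?_ _), ?_, fun Z hZ hne => ?_⟩
  · have := dvd_prod_of_mem (fun ρ : G => rename (Prod.map (lt e ρ) id) δ) (mem_univ 1)
    have h4 : Prod.map (lt e 1) id = (id : V N (n * r + 1) → _) := by
      funext v
      exact Prod.ext (lt_one e v.1) rfl
    simpa [h4] using this
  · rw [map_mul, map_prod, dsc, map_prod]
    refine mul_ne_zero (prod_ne_zero_iff.2 fun π _ => ?_) (prod_ne_zero_iff.2 fun p hp => ?_)
    · have h4 : aeval (orb e l c0 (X : V n r → R n r)) (rename (Prod.map (lt e π) id) δ) =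
          rename (Prod.map (π : Equiv.Perm (Fin n)) id) (aeval (orb e l c0 (X : V n r → R n r)) δ) := by
        rw [aeval_rename, MvPolynomial.comp_aeval_apply (R := ℤ) (orb e l c0 (X : V n r → R n r))
          (rename (Prod.map (π : Equiv.Perm (Fin n)) id)) δ]
        congr 2
        funext ⟨a, c⟩
        rw [orb_map]
        simp only [rename_X]
        exact (orb_perm e l c0 X π a c).symm
      rw [h4]
      exact (map_ne_zero_iff _ (rename_injective _
        ((π : Equiv.Perm (Fin n)).injective.prodMap Function.injective_id))).2 h3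
    · rw [map_sub, aeval_X, aeval_X]
      exact orb_sep e l c0 hl (mem_offDiag.1 hp).2.2
  · have hst : Stab (orb e l c0 Z) := fun τ => by
      obtain ⟨π, hπ⟩ := tau_orb e l c0 hZ τ
      exact ⟨lt e π, hπ⟩
    obtain ⟨Δ0, h0⟩ := blk_GOOD N _ _ 0 (dsc_sym _) (dsc_dif _) _ hst (fun h0 => hne (by
      rw [map_mul, h0, mul_zero]))
    obtain ⟨Δ, hΔ⟩ := GOOD.int_of_fixed _ (fun τ => by
      obtain ⟨π, hπ⟩ := tau_orb e l c0 hZ τ
      rw [GOOD.coe_aeval (orb e l c0 Z)
        ((∏ ρ : G, rename (Prod.map (lt e ρ) id) δ) * dsc N (n * r)), GOOD.tau_aeval]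
      conv_rhs => rw [← hinv π, aeval_rename]
      congr 2
      funext v
      exact hπ v.1 v.2)
    refine ⟨Δ, ?_, hΔ.symm, fun i j hij => ?_, h0.lift, h0.lag⟩
    · rintro rfl
      exact hne (by simpa using hΔ.symm)
    · have := map_dvd (aeval (orb e l c0 Z) : R N (n * r + 1) →ₐ[ℤ] Ob)
        ((dsc_dif (n * r) i j hij).mul_left (∏ ρ : G, rename (Prod.map (lt e ρ) id) δ))
      rw [hΔ]
      simpa using this

end Pool.Agent.DC83
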